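import Mathlib
import Pool.Agent.Helper112.Pf.JFtDiff

set_option autoImplicit false

open MeasureTheory Helper112.Pf Filter Topology

namespace Pool.Agent.TH234.BK

/-- vanishing on the real circle propagates to the complex circle -/
theorem circle_complex {K : Set (Fin 2 → ℝ)} (hK : IsCompact K) {r : ℝ} (hr : 0 < r)
    (h : ∀ θ : ℝ, FT K ![((r * Real.cos θ : ℝ) : ℂ), ((r * Real.sin θ : ℝ) : ℂ)] = 0) (s t : ℂ)
    (hst : s ^ 2 + t ^ 2 = ((r ^ 2 : ℝ) : ℂ)) : FT K ![s, t] = 0 := by
  have hd := FT_diff K hK
  obtain ⟨F, hF⟩ : ∃ F : ℂ → ℂ, F = fun z => FT K ![(r : ℂ) * Complex.cos z, (r : ℂ) * Complex.sin z] :=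
    ⟨_, rfl⟩
  have hFd : Differentiable ℂ F := by
    rw [hF]
    have h1 : Differentiable ℂ (fun z : ℂ => (![(r : ℂ) * Complex.cos z, (r : ℂ) * Complex.sin z] : Fin 2 → ℂ)) := by
      rw [differentiable_pi]
      intro i
      fin_cases i
      · exact (Complex.differentiable_cos).const_mul _
      · exact (Complex.differentiable_sin).const_mul _
    exact hd.comp h1
  have hreal : ∀ x : ℝ, F (x : ℂ) = 0 := by
    intro x
    rw [hF]
    have := h x
    push_cast at this
    exact this
  have hzero : F = fun _ => 0 := by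
    apply AnalyticOnNhd.eq_of_frequently_eq (z₀ := (0 : ℂ))
    · exact fun z _ => hFd.analyticAt z
    · exact fun z _ => analyticAt_const
    · have ht : Tendsto (fun x : ℝ => (x : ℂ)) (𝓝[≠] 0) (𝓝[≠] 0) := by
        apply tendsto_nhdsWithin_of_tendsto_nhds_of_eventually_within
        · have : Tendsto (fun x : ℝ => (x : ℂ)) (𝓝 0) (𝓝 ((0 : ℝ) : ℂ)) :=
            Complex.continuous_ofReal.tendsto 0
          rw [Complex.ofReal_zero] at this
          exact this.mono_left nhdsWithin_le_nhds
        · filter_upwards [self_mem_nhdsWithin] with x hx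
          have hx' : x ≠ 0 := hx
          exact Complex.ofReal_ne_zero.mpr hx'
      exact ht.frequently (Frequently.of_forall fun x => hreal x)
  have hr' : (r : ℂ) ≠ 0 := Complex.ofReal_ne_zero.mpr hr.ne'
  have hprod : (s + Complex.I * t) * (s - Complex.I * t) = (r : ℂ) ^ 2 := by
    have : (s + Complex.I * t) * (s - Complex.I * t) = s ^ 2 - Complex.I ^ 2 * t ^ 2 := by ring
    rw [this, Complex.I_sq]
    push_cast at hst
    linear_combination hst
  have hne : s + Complex.I * t ≠ 0 := by
    intro h0
    rw [h0, zero_mul] at hprod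
    exact (pow_ne_zero 2 hr') hprod.symm
  obtain ⟨w, hw⟩ : ∃ w : ℂ, Complex.exp w = (s + Complex.I * t) / r :=
    ⟨_, Complex.exp_log (div_ne_zero hne hr')⟩
  have hw' : Complex.exp (-w) = (s - Complex.I * t) / r := by
    rw [Complex.exp_neg, hw, inv_div, div_eq_div_iff hne hr']
    linear_combination -hprod
  have hz := congrFun hzero (-Complex.I * w)
  rw [hF] at hz
  simp only [] at hz
  have e1 : (r : ℂ) * Complex.cos (-Complex.I * w) = s := by
    rw [Complex.cos]
    have a1 : -Complex.I * w * Complex.I = w := by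
      have : -Complex.I * w * Complex.I = -(Complex.I ^ 2) * w := by ring
      rw [this, Complex.I_sq]; ring
    have a2 : -(-Complex.I * w) * Complex.I = -w := by
      have : -(-Complex.I * w) * Complex.I = (Complex.I ^ 2) * w := by ring
      rw [this, Complex.I_sq]; ring
    rw [a1, a2, hw, hw']
    field_simp
    ring
  have e2 : (r : ℂ) * Complex.sin (-Complex.I * w) = t := by
    rw [Complex.sin]
    have a1 : -Complex.I * w * Complex.I = w := by
      have : -Complex.I * w * Complex.I = -(Complex.I ^ 2) * w := by ring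
      rw [this, Complex.I_sq]; ring
    have a2 : -(-Complex.I * w) * Complex.I = -w := by
      have : -(-Complex.I * w) * Complex.I = (Complex.I ^ 2) * w := by ring
      rw [this, Complex.I_sq]; ring
    rw [a1, a2, hw, hw']
    field_simp
    have := Complex.I_sq
    linear_combination (-2 * t) * this
  rw [e1, e2] at hz
  exact hz

end Pool.Agent.TH234.BK
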