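import Pool.Agent.TH234.BK.Main
import Pool.Agent.TH234.BK.Circ
import Pool.Agent.W632.Schiffer2

set_option autoImplicit false

open MeasureTheory Helper112.Pf Set

namespace Pool.Agent.TH234.BK

/-- coordinates -/
def flat (Ω : Set (EuclideanSpace ℝ (Fin 2))) : Set (Fin 2 → ℝ) :=
  {x | (WithLp.toLp 2 x : EuclideanSpace ℝ (Fin 2)) ∈ closure Ω}

theorem flat_eq (Ω : Set (EuclideanSpace ℝ (Fin 2))) :
    flat Ω = (EuclideanSpace.equiv (Fin 2) ℝ) '' closure Ω := by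
  ext x
  constructor
  · intro hx
    exact ⟨WithLp.toLp 2 x, hx, rfl⟩
  · rintro ⟨y, hy, rfl⟩
    exact hy

theorem flat_body {Ω : Set (EuclideanSpace ℝ (Fin 2))} (ho : IsOpen Ω) (hc : Convex ℝ Ω)
    (hb : Bornology.IsBounded Ω) (hne : Ω.Nonempty) : IsBody (flat Ω) := by
  rw [flat_eq]
  refine ⟨?_, ?_, ?_⟩
  · exact (hb.isCompact_closure).image (EuclideanSpace.equiv (Fin 2) ℝ).continuous
  · exact hc.closure.linear_image (EuclideanSpace.equiv (Fin 2) ℝ).toLinearEquiv.toLinearMap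
  · have he : (EuclideanSpace.equiv (Fin 2) ℝ) '' closure Ω =
        (EuclideanSpace.equiv (Fin 2) ℝ).toHomeomorph '' closure Ω := rfl
    rw [he, ← Homeomorph.image_interior]
    apply Nonempty.image
    exact hne.mono (interior_maximal subset_closure ho)

theorem flat_int {Ω : Set (EuclideanSpace ℝ (Fin 2))} (hc : Convex ℝ Ω)
    (F : (Fin 2 → ℝ) → ℂ) :
    ∫ x in flat Ω, F x = ∫ x in Ω, F x.ofLp := by
  have h1 : MeasurePreserving (MeasurableEquiv.toLp 2 (Fin 2 → ℝ)) :=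
    (EuclideanSpace.volume_preserving_symm_measurableEquiv_toLp (Fin 2)).symm
  have h2 := h1.setIntegral_preimage_emb (MeasurableEquiv.measurableEmbedding _)
    (fun x : EuclideanSpace ℝ (Fin 2) => F x.ofLp) (closure Ω)
  have h3 : flat Ω = (MeasurableEquiv.toLp 2 (Fin 2 → ℝ)) ⁻¹' closure Ω := rfl
  rw [h3]
  have h4 : ∫ x in closure Ω, F x.ofLp = ∫ x in Ω, F x.ofLp := by
    apply setIntegral_congr_set
    exact closure_ae_eq_of_null_frontier (hc.addHaar_frontier _)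
  rw [← h4, ← h2]
  rfl

/-- the direction `(-sin θ, cos θ)` -/
noncomputable def dir (θ : ℝ) : EuclideanSpace ℝ (Fin 2) := !₂[-Real.sin θ, Real.cos θ]

theorem inner_dir (θ : ℝ) (x : EuclideanSpace ℝ (Fin 2)) :
    inner ℝ x (dir θ) = gg θ x.ofLp := by
  rw [PiLp.inner_apply, Fin.sum_univ_two]
  unfold dir gg
  simp

theorem exists_dir (e : EuclideanSpace ℝ (Fin 2)) (he : ‖e‖ = 1) : ∃ θ, e = dir θ := by
  obtain ⟨z, hz⟩ : ∃ z : ℂ, z = ⟨e 1, -(e 0)⟩ := ⟨_, rfl⟩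
  have h2 : e 0 ^ 2 + e 1 ^ 2 = 1 := by
    have := EuclideanSpace.norm_sq_eq e
    rw [he, Fin.sum_univ_two] at this
    simp only [Real.norm_eq_abs, sq_abs] at this
    linarith
  have hn : ‖z‖ = 1 := by
    have : ‖z‖ ^ 2 = 1 := by
      rw [← Complex.normSq_eq_norm_sq, hz, Complex.normSq_mk]
      nlinarith
    nlinarith [norm_nonneg z]
  have q0 := Complex.norm_mul_cos_arg z
  have q1 := Complex.norm_mul_sin_arg z
  rw [hn, one_mul, hz] at q0 q1
  refine ⟨Complex.arg z, ?_⟩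
  rw [hz]
  ext i
  fin_cases i
  · unfold dir
    simp at q1 ⊢
    linarith
  · unfold dir
    simp at q0 ⊢
    linarith

/-- width -/
noncomputable def wE (Ω : Set (EuclideanSpace ℝ (Fin 2))) (e : EuclideanSpace ℝ (Fin 2)) : ℝ :=
  sSup ((fun x => inner ℝ x e) '' Ω) - sInf ((fun x => inner ℝ x e) '' Ω)

theorem wE_eq {Ω : Set (EuclideanSpace ℝ (Fin 2))} (hb : Bornology.IsBounded Ω) (hne : Ω.Nonempty)
    (θ : ℝ) : wE Ω (dir θ) = wd (flat Ω) θ := by
  unfold wE wd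
  have h1 : gg θ '' flat Ω = (fun x => inner ℝ x (dir θ)) '' closure Ω := by
    ext u
    constructor
    · rintro ⟨x, hx, rfl⟩
      exact ⟨WithLp.toLp 2 x, hx, inner_dir θ _⟩
    · rintro ⟨x, hx, rfl⟩
      exact ⟨x.ofLp, hx, (inner_dir θ x).symm⟩
  have hc : Continuous (fun x : EuclideanSpace ℝ (Fin 2) => inner ℝ x (dir θ)) := by fun_prop
  have hcl : (fun x : EuclideanSpace ℝ (Fin 2) => inner ℝ x (dir θ)) '' closure Ω
      = closure ((fun x : EuclideanSpace ℝ (Fin 2) => inner ℝ x (dir θ)) '' Ω) :=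
    image_closure_of_isCompact hb.isCompact_closure hc.continuousOn
  rw [h1, hcl]
  have hne' := hne.image (fun x : EuclideanSpace ℝ (Fin 2) => inner ℝ x (dir θ))
  have hK := (hb.isCompact_closure.image hc)
  rw [hcl] at hK
  have hba : BddAbove ((fun x : EuclideanSpace ℝ (Fin 2) => inner ℝ x (dir θ)) '' Ω) :=
    hK.bddAbove.mono subset_closure
  have hbb : BddBelow ((fun x : EuclideanSpace ℝ (Fin 2) => inner ℝ x (dir θ)) '' Ω) :=
    hK.bddBelow.mono subset_closure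
  have a1 := (isLUB_iff_of_subset_of_subset_closure subset_closure subset_rfl).1
    (isLUB_csSup hne' hba)
  have a2 := (isGLB_iff_of_subset_of_subset_closure subset_closure subset_rfl).1
    (isGLB_csInf hne' hbb)
  rw [a1.csSup_eq hne'.closure, a2.csInf_eq hne'.closure]

theorem final {Ω : Set (EuclideanSpace ℝ (Fin 2))} (ho : IsOpen Ω) (hc : Convex ℝ Ω)
    (hb : Bornology.IsBounded Ω) (hne : Ω.Nonempty) {lam : ℝ} (hlam : 0 < lam)
    (hft : ∀ ξ : EuclideanSpace ℝ (Fin 2), ‖ξ‖ ^ 2 = lam →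
      ∫ x in Ω, Real.cos (inner ℝ ξ x) = 0 ∧ ∫ x in Ω, Real.sin (inner ℝ ξ x) = 0)
    (e f : EuclideanSpace ℝ (Fin 2)) (he : ‖e‖ = 1) (hf : ‖f‖ = 1) :
    wE Ω e < 3 / 2 * wE Ω f := by
  obtain ⟨θ₁, rfl⟩ := exists_dir e he
  obtain ⟨θ₀, rfl⟩ := exists_dir f hf
  rw [wE_eq hb hne, wE_eq hb hne]
  have hB := flat_body ho hc hb hne
  have hr : 0 < Real.sqrt lam := Real.sqrt_pos.2 hlam
  refine ratio hB hr ?_ θ₁ θ₀
  apply circle_complex hB.1 hr
  intro θ
  unfold FT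
  rw [flat_int hc]
  have hfin : volume Ω < ⊤ := hb.measure_lt_top
  obtain ⟨ξ, hξ⟩ : ∃ ξ : EuclideanSpace ℝ (Fin 2),
      ξ = !₂[Real.sqrt lam * Real.cos θ, Real.sqrt lam * Real.sin θ] := ⟨_, rfl⟩
  have hn : ‖ξ‖ ^ 2 = lam := by
    rw [EuclideanSpace.norm_sq_eq, Fin.sum_univ_two, hξ]
    simp
    have h1 := Real.cos_sq_add_sin_sq θ
    have h2 := Real.sq_sqrt hlam.le
    rw [mul_pow, mul_pow, sq_abs, sq_abs, sq_abs, h2]
    rw [← mul_add, h1, mul_one]
  obtain ⟨k1, k2⟩ := hft ξ hn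
  have hi : ∀ x : EuclideanSpace ℝ (Fin 2), inner ℝ ξ x =
      x.ofLp 0 * (Real.sqrt lam * Real.cos θ) + x.ofLp 1 * (Real.sqrt lam * Real.sin θ) := by
    intro x
    rw [PiLp.inner_apply, Fin.sum_univ_two, hξ]
    simp
  have e1 : ∀ x : EuclideanSpace ℝ (Fin 2),
      Complex.exp (-(Complex.I * ∑ i, ((x.ofLp i : ℝ) : ℂ) *
        (![((Real.sqrt lam * Real.cos θ : ℝ) : ℂ), ((Real.sqrt lam * Real.sin θ : ℝ) : ℂ)] : Fin 2 → ℂ) i))
      = ((Real.cos (inner ℝ ξ x) : ℝ) : ℂ) - ((Real.sin (inner ℝ ξ x) : ℝ) : ℂ) * Complex.I := by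
    intro x
    rw [Fin.sum_univ_two]
    have e2 : -(Complex.I * (((x.ofLp 0 : ℝ) : ℂ) *
        (![((Real.sqrt lam * Real.cos θ : ℝ) : ℂ), ((Real.sqrt lam * Real.sin θ : ℝ) : ℂ)] : Fin 2 → ℂ) 0
        + ((x.ofLp 1 : ℝ) : ℂ) *
        (![((Real.sqrt lam * Real.cos θ : ℝ) : ℂ), ((Real.sqrt lam * Real.sin θ : ℝ) : ℂ)] : Fin 2 → ℂ) 1))
        = ((-(inner ℝ ξ x : ℝ) : ℝ) : ℂ) * Complex.I := by
      rw [hi]
      simp only [Matrix.cons_val_zero, Matrix.cons_val_one]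
      push_cast
      ring
    rw [e2, Complex.exp_mul_I, ← Complex.ofReal_cos, ← Complex.ofReal_sin, Real.cos_neg, Real.sin_neg]
    push_cast
    ring
  rw [integral_congr_ae (Filter.Eventually.of_forall e1)]
  have : IsFiniteMeasure (volume.restrict Ω) := ⟨by
    rw [Measure.restrict_apply_univ]; exact hfin⟩
  have i1 : Integrable (fun x => Real.cos (inner ℝ ξ x)) (volume.restrict Ω) := by
    refine Integrable.of_bound (by fun_prop) 1 (Filter.Eventually.of_forall fun x => ?_)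
    simpa using Real.abs_cos_le_one _
  have i2 : Integrable (fun x => Real.sin (inner ℝ ξ x)) (volume.restrict Ω) := by
    refine Integrable.of_bound (by fun_prop) 1 (Filter.Eventually.of_forall fun x => ?_)
    simpa using Real.abs_sin_le_one _
  rw [integral_sub i1.ofReal (i2.ofReal.mul_const _), integral_mul_const,
    integral_complex_ofReal, integral_complex_ofReal, k1, k2]
  simp

end Pool.Agent.TH234.BK
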