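import Pool.Agent.TH234.BK.OneD
import Pool.Agent.TH234.BK.Corner
import Pool.Agent.Helper112.Pf.VChordExists
import Pool.Agent.Helper112.Pf.WFtChord

set_option autoImplicit false

open MeasureTheory Helper112.Pf Set

namespace Pool.Agent.TH234.BK

theorem cs_ne (θ : ℝ) : Real.cos θ ^ 2 + Real.sin θ ^ 2 ≠ 0 := by
  rw [Real.cos_sq_add_sin_sq]; exact one_ne_zero

/-- rotation -/
noncomputable def rot (θ : ℝ) : (Fin 2 → ℝ) ≃ₗ[ℝ] (Fin 2 → ℝ) :=
  rotDil (Real.cos θ) (Real.sin θ) (cs_ne θ)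

theorem rot0 (θ : ℝ) (x : Fin 2 → ℝ) : rot θ x 0 = Real.cos θ * x 0 + Real.sin θ * x 1 := rfl

theorem rot1 (θ : ℝ) (x : Fin 2 → ℝ) : rot θ x 1 = -Real.sin θ * x 0 + Real.cos θ * x 1 := rfl

theorem rot_vol (θ : ℝ) (K : Set (Fin 2 → ℝ)) : volume (rot θ '' K) = volume K := by
  have h1 := MeasureTheory.Measure.addHaar_image_linearMap (volume : Measure (Fin 2 → ℝ))
    ((rot θ : (Fin 2 → ℝ) ≃ₗ[ℝ] (Fin 2 → ℝ)) : (Fin 2 → ℝ) →ₗ[ℝ] (Fin 2 → ℝ)) K
  have h2 : ((rot θ : (Fin 2 → ℝ) ≃ₗ[ℝ] (Fin 2 → ℝ)) : (Fin 2 → ℝ) →ₗ[ℝ] (Fin 2 → ℝ))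
      = Matrix.toLin' !![Real.cos θ, Real.sin θ; -Real.sin θ, Real.cos θ] := by
    apply LinearMap.ext
    intro x
    ext i
    rw [Matrix.toLin'_apply]
    fin_cases i
    · show rot θ x 0 = _
      rw [rot0]; simp [Matrix.mulVec, dotProduct, Fin.sum_univ_two]
    · show rot θ x 1 = _
      rw [rot1]; simp [Matrix.mulVec, dotProduct, Fin.sum_univ_two]
  have h3 : LinearMap.det ((rot θ : (Fin 2 → ℝ) ≃ₗ[ℝ] (Fin 2 → ℝ)) : (Fin 2 → ℝ) →ₗ[ℝ] (Fin 2 → ℝ))
      = 1 := by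
    rw [h2, LinearMap.det_toLin', Matrix.det_fin_two]
    simp
    nlinarith [Real.cos_sq_add_sin_sq θ]
  rw [h3] at h1
  simpa using h1

/-- linear form in the direction `(-sin θ, cos θ)` -/
noncomputable def gg (θ : ℝ) (x : Fin 2 → ℝ) : ℝ := -Real.sin θ * x 0 + Real.cos θ * x 1

/-- width in the direction `(-sin θ, cos θ)` -/
noncomputable def wd (K : Set (Fin 2 → ℝ)) (θ : ℝ) : ℝ := sSup (gg θ '' K) - sInf (gg θ '' K)

theorem wd_cont {K : Set (Fin 2 → ℝ)} (hK : IsCompact K) : Continuous (wd K) := by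
  have h1 : Continuous (fun p : ℝ × (Fin 2 → ℝ) => gg p.1 p.2) := by
    unfold gg; fun_prop
  unfold wd
  exact (hK.continuous_sSup h1).sub (hK.continuous_sInf h1)

theorem wd_ge {K : Set (Fin 2 → ℝ)} (hK : IsCompact K) {θ : ℝ} {P Q : Fin 2 → ℝ} (hP : P ∈ K)
    (hQ : Q ∈ K) : gg θ Q - gg θ P ≤ wd K θ := by
  have hc : Continuous (gg θ) := by unfold gg; fun_prop
  have h1 := (hK.image hc).bddAbove
  have h2 := (hK.image hc).bddBelow
  have a := le_csSup h1 (mem_image_of_mem (gg θ) hQ)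
  have b := csInf_le h2 (mem_image_of_mem (gg θ) hP)
  unfold wd; linarith

theorem wd_attained {K : Set (Fin 2 → ℝ)} (hK : IsCompact K) (hne : K.Nonempty) (θ : ℝ) :
    ∃ P ∈ K, ∃ Q ∈ K, gg θ Q - gg θ P = wd K θ := by
  have hc : Continuous (gg θ) := by unfold gg; fun_prop
  have h1 := (hK.image hc).sSup_mem (hne.image _)
  have h2 := (hK.image hc).sInf_mem (hne.image _)
  obtain ⟨Q, hQ, hQ'⟩ := h1
  obtain ⟨P, hP, hP'⟩ := h2
  exact ⟨P, hP, Q, hQ, by unfold wd; rw [hQ', hP']⟩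

/-- Chord function data in one direction. -/
structure CD (K : Set (Fin 2 → ℝ)) (r θ A B : ℝ) (L : ℝ → ℝ) : Prop where
  lt : A < B
  wid : B - A = wd K θ
  conc : ConcaveOn ℝ (Icc A B) L
  cont : ContinuousOn L (Icc A B)
  nonneg : ∀ u ∈ Icc A B, 0 ≤ L u
  pos : ∀ u ∈ Ioo A B, 0 < L u
  le : ∀ u ∈ Icc A B, L u ≤ wd K (θ - Real.pi / 2)
  area : ∫ u in A..B, L u = (volume K).toReal
  chord : ∀ P ∈ K, ∀ Q ∈ K, ∀ d : ℝ, Q 0 - P 0 = d * Real.cos θ → Q 1 - P 1 = d * Real.sin θ →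
    ∃ u ∈ Icc A B, d ≤ L u
  fourier : ∀ p : ℝ, ∫ u in A..B, L u * Real.cos (r * u - p) = 0
  nocorner : ∀ d : ℝ, 0 < d → A + 2 * d ≤ B → L A + L (A + 2 * d) = 2 * L (A + d) → False

theorem chordData {K : Set (Fin 2 → ℝ)} (hK : IsBody K) {r : ℝ}
    (hz : ∀ s t : ℂ, s ^ 2 + t ^ 2 = ((r ^ 2 : ℝ) : ℂ) → FT K ![s, t] = 0) (θ : ℝ) :
    ∃ (A B : ℝ) (L : ℝ → ℝ), CD K r θ A B L := by
  obtain ⟨K1, hK1⟩ : ∃ K1, K1 = rot θ '' K := ⟨_, rfl⟩
  have hB1 : IsBody K1 := by rw [hK1]; exact body_linear _ K hK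
  obtain ⟨A, B, lo, hi, hCh⟩ := chord_exists K1 hB1
  have hCh' := hCh
  obtain ⟨hAB, hlo, hhi, hloc, hhic, hle, hlt, hKeq⟩ := hCh
  -- Fourier transform of the rotated body
  have hz1 : ∀ s t : ℂ, s ^ 2 + t ^ 2 = ((r ^ 2 : ℝ) : ℂ) → FT K1 ![s, t] = 0 := by
    intro s t hst
    obtain ⟨c', _, hc'⟩ := FT_linear (rot θ) K hK.1 ![s, t]
      ![((Real.cos θ : ℝ) : ℂ) * s + ((-Real.sin θ : ℝ) : ℂ) * t,
        ((Real.sin θ : ℝ) : ℂ) * s + ((Real.cos θ : ℝ) : ℂ) * t] (by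
        intro x
        rw [Fin.sum_univ_two, Fin.sum_univ_two, rot0, rot1]
        simp only [Matrix.cons_val_zero, Matrix.cons_val_one]
        push_cast
        ring)
    rw [hK1, hc', hz, mul_zero]
    rw [← hst]
    have h5 : ((Real.cos θ : ℝ) : ℂ) ^ 2 + ((Real.sin θ : ℝ) : ℂ) ^ 2 = 1 := by
      exact_mod_cast Real.cos_sq_add_sin_sq θ
    push_cast at h5 ⊢
    linear_combination (s ^ 2 + t ^ 2) * h5
  have memK1 : ∀ x : Fin 2 → ℝ, x ∈ K1 ↔ x 1 ∈ Icc A B ∧ lo (x 1) ≤ x 0 ∧ x 0 ≤ hi (x 1) := by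
    intro x
    nth_rewrite 1 [hKeq]
    rfl
  have hmem : ∀ x ∈ K, rot θ x ∈ K1 := fun x hx => by rw [hK1]; exact mem_image_of_mem _ hx
  have hggrot : ∀ x, gg θ x = rot θ x 1 := fun x => by rw [rot1]; rfl
  -- image of gg is Icc A B
  have himg : gg θ '' K = Icc A B := by
    ext u
    constructor
    · rintro ⟨x, hx, rfl⟩
      rw [hggrot]
      exact ((memK1 _).1 (hmem x hx)).1
    · intro hu
      have : ![lo u, u] ∈ K1 := by
        rw [memK1]
        exact ⟨hu, le_rfl, hle u hu⟩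
      rw [hK1] at this
      obtain ⟨x, hx, hxe⟩ := this
      refine ⟨x, hx, ?_⟩
      rw [hggrot, hxe]; rfl
  have hwid : B - A = wd K θ := by
    unfold wd
    rw [himg, csSup_Icc hAB.le, csInf_Icc hAB.le]
  obtain ⟨L, hL⟩ : ∃ L : ℝ → ℝ, L = fun u => hi u - lo u := ⟨_, rfl⟩
  refine ⟨A, B, L, ?_⟩
  have hLc : ContinuousOn L (Icc A B) := by rw [hL]; exact hhic.sub hloc
  refine ⟨hAB, hwid, ?_, hLc, ?_, ?_, ?_, ?_, ?_, ?_, ?_⟩
  · rw [hL]; exact hhi.sub hlo
  · intro u hu; rw [hL]; exact sub_nonneg.2 (hle u hu)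
  · intro u hu; rw [hL]; exact sub_pos.2 (hlt u hu)
  · -- chord ≤ width
    intro u hu
    have h1 : ![lo u, u] ∈ K1 := by rw [memK1]; exact ⟨hu, le_rfl, hle u hu⟩
    have h2 : ![hi u, u] ∈ K1 := by rw [memK1]; exact ⟨hu, hle u hu, le_rfl⟩
    rw [hK1] at h1 h2
    obtain ⟨P, hP, hPe⟩ := h1
    obtain ⟨Q, hQ, hQe⟩ := h2
    have h3 := wd_ge hK.1 (θ := θ - Real.pi / 2) hP hQ
    have e1 : gg (θ - Real.pi / 2) P = rot θ P 0 := by
      rw [rot0]; unfold gg
      rw [Real.sin_sub_pi_div_two, Real.cos_sub_pi_div_two]; ring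
    have e2 : gg (θ - Real.pi / 2) Q = rot θ Q 0 := by
      rw [rot0]; unfold gg
      rw [Real.sin_sub_pi_div_two, Real.cos_sub_pi_div_two]; ring
    rw [e1, e2, hPe, hQe] at h3
    rw [hL]
    exact h3
  · -- area
    have h1 := FT_chord K1 hB1 A B lo hi hCh' 0 0
    have h2 : FT K1 ![0, 0] = (((volume K).toReal : ℝ) : ℂ) := by
      unfold FT
      simp
      rw [measureReal_def, hK1, rot_vol]
    rw [h2] at h1
    have h3 : (∫ u in A..B, Complex.exp (-(Complex.I * 0 * u)) *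
      ∫ x in (lo u)..(hi u), Complex.exp (-(Complex.I * 0 * x))) = ((∫ u in A..B, L u : ℝ) : ℂ) := by
      rw [← intervalIntegral.integral_ofReal]
      congr 1; funext u
      rw [hL]
      simp
    rw [h3] at h1
    exact_mod_cast h1.symm
  · -- chord
    intro P hP Q hQ d h0 h1
    have hP1 := (memK1 _).1 (hmem P hP)
    have hQ1 := (memK1 _).1 (hmem Q hQ)
    have e1 : rot θ Q 1 = rot θ P 1 := by
      rw [rot1, rot1]
      have : Q 0 = P 0 + d * Real.cos θ := by linarith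
      rw [this]
      have : Q 1 = P 1 + d * Real.sin θ := by linarith
      rw [this]; ring
    have e0 : rot θ Q 0 - rot θ P 0 = d := by
      rw [rot0, rot0]
      have h5 := Real.cos_sq_add_sin_sq θ
      linear_combination Real.cos θ * h0 + Real.sin θ * h1 + d * h5
    refine ⟨rot θ P 1, hP1.1, ?_⟩
    rw [e1] at hQ1
    rw [hL]
    simp only []
    linarith [hP1.2.1, hQ1.2.2]
  · -- fourier
    intro p
    have h1 := FT_chord K1 hB1 A B lo hi hCh' 0 r
    rw [hz1 0 r (by push_cast; ring)] at h1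
    have h3 : (∫ u in A..B, Complex.exp (-(Complex.I * r * u)) *
      ∫ x in (lo u)..(hi u), Complex.exp (-(Complex.I * 0 * x)))
      = ((∫ u in A..B, L u * Real.cos (r * u) : ℝ) : ℂ)
        - ((∫ u in A..B, L u * Real.sin (r * u) : ℝ) : ℂ) * Complex.I := by
      rw [← intervalIntegral.integral_ofReal, ← intervalIntegral.integral_ofReal,
        ← intervalIntegral.integral_mul_const, ← intervalIntegral.integral_sub]
      · congr 1; funext u
        have e1 : -(Complex.I * r * u) = ((-(r * u) : ℝ) : ℂ) * Complex.I := by push_cast; ring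
        rw [e1, Complex.exp_mul_I, ← Complex.ofReal_cos, ← Complex.ofReal_sin, Real.cos_neg,
          Real.sin_neg, hL]
        simp
        ring
      · apply ContinuousOn.intervalIntegrable
        rw [uIcc_of_le hAB.le]
        exact Complex.continuous_ofReal.comp_continuousOn (hLc.mul (by fun_prop))
      · apply ContinuousOn.intervalIntegrable
        rw [uIcc_of_le hAB.le]
        exact (Complex.continuous_ofReal.comp_continuousOn (hLc.mul (by fun_prop))).mul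
          continuousOn_const
    rw [h3] at h1
    have hre := congrArg Complex.re h1
    have him := congrArg Complex.im h1
    simp at hre him
    have i1 : IntervalIntegrable (fun u => L u * Real.cos (r * u)) volume A B :=
      ContinuousOn.intervalIntegrable (by rw [uIcc_of_le hAB.le]; exact hLc.mul (by fun_prop))
    have i2 : IntervalIntegrable (fun u => L u * Real.sin (r * u)) volume A B :=
      ContinuousOn.intervalIntegrable (by rw [uIcc_of_le hAB.le]; exact hLc.mul (by fun_prop))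
    have e5 : ∫ u in A..B, L u * Real.cos (r * u - p) =
        Real.cos p * (∫ u in A..B, L u * Real.cos (r * u)) +
        Real.sin p * ∫ u in A..B, L u * Real.sin (r * u) := by
      rw [← intervalIntegral.integral_const_mul, ← intervalIntegral.integral_const_mul,
        ← intervalIntegral.integral_add (i1.const_mul _) (i2.const_mul _)]
      congr 1; funext u
      rw [Real.cos_sub]; ring
    rw [e5, ← hre, him]; ring
  · -- no corner
    intro d hd hdB he
    have mA : A ∈ Icc A B := ⟨le_rfl, by linarith⟩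
    have m2 : A + 2 * d ∈ Icc A B := ⟨by linarith, hdB⟩
    have c1 := hhi.2 mA m2 (show (0:ℝ) ≤ 1 / 2 by norm_num) (show (0:ℝ) ≤ 1 / 2 by norm_num)
      (by norm_num)
    have c2 := hlo.2 mA m2 (show (0:ℝ) ≤ 1 / 2 by norm_num) (show (0:ℝ) ≤ 1 / 2 by norm_num)
      (by norm_num)
    simp only [smul_eq_mul] at c1 c2
    rw [show 1 / 2 * A + 1 / 2 * (A + 2 * d) = A + d by ring] at c1 c2
    rw [hL] at he
    simp only [] at he
    have hhe : hi A + hi (A + 2 * d) = 2 * hi (A + d) := by linarith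
    have haff := aff hd hdB hhi hhe
    obtain ⟨σ, hσ⟩ : ∃ σ, σ = (hi (A + d) - hi A) / d := ⟨_, rfl⟩
    rw [← hσ] at haff
    refine no_corner K1 hB1 (r ^ 2) hz1 ![hi A, A] ![0, -1] ![1, -σ] ?_ ?_ ?_
    · rw [memK1]; exact ⟨mA, hle A mA, le_rfl⟩
    · simp
    · intro x hx
      rw [memK1] at hx
      obtain ⟨hx1, hx2, hx3⟩ := hx
      simp only [Matrix.cons_val_zero, Matrix.cons_val_one]
      constructor
      · linarith [hx1.1]
      · have := haff (x 1) hx1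
        nlinarith

end Pool.Agent.TH234.BK
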