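import Pool.Agent.TH234.BK.Geo

set_option autoImplicit false

open MeasureTheory Helper112.Pf Set

namespace Pool.Agent.TH234.BK

section scaled

variable {K : Set (Fin 2 → ℝ)} {r θ A B : ℝ} {L : ℝ → ℝ}

/-- rescaled chord function -/
noncomputable def sc (r : ℝ) (L : ℝ → ℝ) : ℝ → ℝ := fun s => L (s / r)

theorem sc_mem (hr : 0 < r) {s : ℝ} (hs : s ∈ Icc (r * A) (r * B)) : s / r ∈ Icc A B :=
  ⟨by rw [le_div_iff₀ hr]; linarith [hs.1], by rw [div_le_iff₀ hr]; linarith [hs.2]⟩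

theorem sc_conc (hr : 0 < r) (h : ConcaveOn ℝ (Icc A B) L) :
    ConcaveOn ℝ (Icc (r * A) (r * B)) (sc r L) := by
  refine ⟨convex_Icc _ _, ?_⟩
  intro x hx y hy a b ha hb hab
  have := h.2 (sc_mem hr hx) (sc_mem hr hy) ha hb hab
  simp only [smul_eq_mul] at this ⊢
  unfold sc
  rwa [show a * (x / r) + b * (y / r) = (a * x + b * y) / r by ring] at this

theorem sc_cont (hr : 0 < r) (h : ContinuousOn L (Icc A B)) :
    ContinuousOn (sc r L) (Icc (r * A) (r * B)) := by
  unfold sc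
  exact h.comp (by fun_prop) (fun s hs => sc_mem hr hs)

theorem sc_int (hr : 0 < r) (F : ℝ → ℝ) : ∫ s in (r * A)..(r * B), F (s / r) = r * ∫ u in A..B, F u := by
  rw [intervalIntegral.integral_comp_div F hr.ne']
  rw [smul_eq_mul, mul_div_cancel_left₀ _ hr.ne', mul_div_cancel_left₀ _ hr.ne']

theorem sc_four (hr : 0 < r) (h : CD K r θ A B L) (p : ℝ) :
    ∫ s in (r * A)..(r * B), sc r L s * Real.cos (s - p) = 0 := by
  have h1 := sc_int (A := A) (B := B) hr (fun u => L u * Real.cos (r * u - p))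
  rw [h.fourier p, mul_zero] at h1
  rw [← h1]
  congr 1; funext s
  unfold sc
  rw [mul_div_cancel₀ _ hr.ne']

theorem sc_area (hr : 0 < r) (h : CD K r θ A B L) :
    ∫ s in (r * A)..(r * B), sc r L s = r * (volume K).toReal := by
  rw [← h.area]
  exact sc_int hr L

end scaled

variable {K : Set (Fin 2 → ℝ)} {r : ℝ}

theorem wd_pos (hC : ∀ θ, ∃ (A B : ℝ) (L : ℝ → ℝ), CD K r θ A B L) (θ : ℝ) :
    0 < wd K θ := by
  obtain ⟨A, B, L, h⟩ := hC θ
  rw [← h.wid]; linarith [h.lt]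

/-- no width below `2π/r` -/
theorem wd_large (hr : 0 < r) (hC : ∀ θ, ∃ (A B : ℝ) (L : ℝ → ℝ), CD K r θ A B L) (θ : ℝ) :
    2 * Real.pi ≤ r * wd K θ := by
  obtain ⟨A, B, L, h⟩ := hC θ
  by_contra hcon
  push Not at hcon
  rw [← h.wid] at hcon
  obtain ⟨c, hc⟩ : ∃ c, c = r * (A + B) / 2 := ⟨_, rfl⟩
  obtain ⟨t, ht⟩ : ∃ t, t = r * (B - A) / 2 := ⟨_, rfl⟩
  have e1 : r * A = c - t := by rw [hc, ht]; ring
  have e2 : r * B = c + t := by rw [hc, ht]; ring
  have f1 := sc_conc hr h.conc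
  have f2 := sc_cont hr h.cont
  have f3 := sc_four hr h c
  have f4 : ∀ s ∈ Icc (r * A) (r * B), 0 ≤ sc r L s := fun s hs => h.nonneg _ (sc_mem hr hs)
  rw [e1, e2] at f1 f2 f3 f4
  have hlt := h.lt
  have := small (h := t) (c := c) (by rw [ht]; have := mul_pos hr (sub_pos.2 hlt); linarith) (by linarith) f1 f2 f4 (by
    unfold sc
    have e3 : c / r = (A + B) / 2 := by rw [hc]; field_simp
    rw [e3]
    exact h.pos _ ⟨by linarith, by linarith⟩)
  linarith

/-- no width is a multiple of `2π/r` -/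
theorem wd_ne (hr : 0 < r) (hC : ∀ θ, ∃ (A B : ℝ) (L : ℝ → ℝ), CD K r θ A B L) (θ : ℝ) (k : ℕ)
    (hk : 1 ≤ k) : r * wd K θ ≠ 2 * Real.pi * k := by
  obtain ⟨A, B, L, h⟩ := hC θ
  intro he
  rw [← h.wid] at he
  have hpi := Real.pi_pos
  have hk' : (1 : ℝ) ≤ k := by exact_mod_cast hk
  have eB : r * B = r * A + 2 * Real.pi * k := by linarith
  have f1 := sc_conc hr h.conc
  have f2 := sc_cont hr h.cont
  have f3 := sc_four hr h (r * A)
  rw [eB] at f1 f2 f3
  have key := (periods k f1 f2).2 hk f3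
  unfold sc at key
  have e1 : r * A / r = A := mul_div_cancel_left₀ _ hr.ne'
  have e2 : (r * A + 2 * Real.pi) / r = A + 2 * (Real.pi / r) := by field_simp
  have e3 : (r * A + Real.pi) / r = A + Real.pi / r := by field_simp
  rw [e1, e2, e3] at key
  refine h.nocorner (Real.pi / r) (by positivity) ?_ key
  have : A + 2 * (Real.pi / r) = (r * A + 2 * Real.pi) / r := by field_simp
  rw [this, div_le_iff₀ hr]
  nlinarith

/-- the width ratio is less than `3/2` -/
theorem ratio (hK : IsBody K) (hr : 0 < r)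
    (hz : ∀ s t : ℂ, s ^ 2 + t ^ 2 = ((r ^ 2 : ℝ) : ℂ) → FT K ![s, t] = 0) (θ₁ θ₀ : ℝ) :
    wd K θ₁ < 3 / 2 * wd K θ₀ := by
  have hpi := Real.pi_pos
  have hC := chordData hK hz
  have hcont : Continuous (fun θ => r * wd K θ) := continuous_const.mul (wd_cont hK.1)
  have hne : K.Nonempty := hK.2.2.mono interior_subset
  -- the number of periods
  obtain ⟨k, hk⟩ : ∃ k : ℕ, k = ⌊r * wd K θ₀ / (2 * Real.pi)⌋₊ := ⟨_, rfl⟩
  have hw0 := wd_large hr hC θ₀
  have hk1 : 1 ≤ k := by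
    rw [hk, Nat.one_le_floor_iff, le_div_iff₀ (by positivity)]
    linarith
  have hkle : 2 * Real.pi * k ≤ r * wd K θ₀ := by
    have h0 : 0 ≤ r * wd K θ₀ / (2 * Real.pi) := div_nonneg (by linarith) (by linarith)
    have h1 : (k : ℝ) ≤ r * wd K θ₀ / (2 * Real.pi) := by
      rw [hk]; exact Nat.floor_le h0
    rw [le_div_iff₀ (by positivity)] at h1
    linarith
  have hkub : r * wd K θ₀ < 2 * Real.pi * ((k + 1 : ℕ) : ℝ) := by
    have h1 : r * wd K θ₀ / (2 * Real.pi) < (k : ℝ) + 1 := by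
      rw [hk]; exact Nat.lt_floor_add_one _
    rw [div_lt_iff₀ (by positivity)] at h1
    push_cast
    linarith
  have hub : ∀ θ, r * wd K θ < 2 * Real.pi * ((k + 1 : ℕ) : ℝ) := by
    intro θ
    by_contra hcon
    push Not at hcon
    have hmem := intermediate_value_univ θ₀ θ hcont ⟨hkub.le, hcon⟩
    obtain ⟨θ', hθ'⟩ := hmem
    exact wd_ne hr hC θ' (k + 1) (by omega) hθ'
  rcases Nat.lt_or_ge 1 k with hk2 | hk2
  · -- at least two periods
    have h1 := hub θ₁
    have hk2' : (2 : ℝ) ≤ k := by exact_mod_cast hk2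
    push_cast at h1
    have h2 : r * wd K θ₁ < r * (3 / 2 * wd K θ₀) := by nlinarith
    exact lt_of_mul_lt_mul_left h2 hr.le
  · have hk3 : k = 1 := by omega
    subst hk3
    have hub' : ∀ θ, r * wd K θ < 4 * Real.pi := by
      intro θ; have := hub θ; push_cast at this; linarith
    have hlb : ∀ θ, 2 * Real.pi < r * wd K θ := by
      intro θ
      rcases eq_or_lt_of_le (wd_large hr hC θ) with h | h
      · exfalso
        exact wd_ne hr hC θ 1 le_rfl (by rw [← h]; simp)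
      · exact h
    -- upper bound for the area
    have hA : r * (volume K).toReal ≤ 2 * Real.pi * wd K θ₀ := by
      obtain ⟨A, B, L, h⟩ := hC (θ₀ + Real.pi / 2)
      obtain ⟨c, hc⟩ : ∃ c, c = r * (A + B) / 2 := ⟨_, rfl⟩
      obtain ⟨t, ht⟩ : ∃ t, t = r * (B - A) / 2 := ⟨_, rfl⟩
      have e1 : r * A = c - t := by rw [hc, ht]; ring
      have e2 : r * B = c + t := by rw [hc, ht]; ring
      have f1 := sc_conc hr h.conc
      have f2 := sc_cont hr h.cont
      have f3 := sc_four hr h c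
      have f4 := sc_area hr h
      have f5 : ∀ s ∈ Icc (r * A) (r * B), sc r L s ≤ wd K θ₀ := by
        intro s hs
        have := h.le _ (sc_mem hr hs)
        rwa [add_sub_cancel_right] at this
      rw [e1, e2] at f1 f2 f3 f4 f5
      rw [← f4]
      have h1 := hlb (θ₀ + Real.pi / 2)
      have h2 := hub' (θ₀ + Real.pi / 2)
      rw [← h.wid] at h1 h2
      exact upper (by linarith) (by linarith) f1 f2 f5 f3
    -- lower bound for the area
    have hB : 4 * Real.pi / 3 * wd K θ₁ < r * (volume K).toReal := by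
      obtain ⟨P, hP, Q, hQ, hPQ⟩ := wd_attained hK.1 hne θ₁
      obtain ⟨z, hz'⟩ : ∃ z : ℂ, z = ⟨Q 0 - P 0, Q 1 - P 1⟩ := ⟨_, rfl⟩
      have q0 : ‖z‖ * Real.cos (Complex.arg z) = Q 0 - P 0 := by
        rw [Complex.norm_mul_cos_arg, hz']
      have q1 : ‖z‖ * Real.sin (Complex.arg z) = Q 1 - P 1 := by
        rw [Complex.norm_mul_sin_arg, hz']
      have hd : wd K θ₁ ≤ ‖z‖ := by
        have e : gg θ₁ Q - gg θ₁ P = ‖z‖ * Real.sin (Complex.arg z - θ₁) := by
          rw [Real.sin_sub]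
          unfold gg
          linear_combination -Real.sin θ₁ * (-q0) + Real.cos θ₁ * (-q1)
        rw [← hPQ, e]
        exact mul_le_of_le_one_right (norm_nonneg z) (Real.sin_le_one _)
      obtain ⟨A, B, L, h⟩ := hC (Complex.arg z)
      obtain ⟨u, hu, hdu⟩ := h.chord P hP Q hQ ‖z‖ q0.symm q1.symm
      obtain ⟨c, hc⟩ : ∃ c, c = r * (A + B) / 2 := ⟨_, rfl⟩
      obtain ⟨t, ht⟩ : ∃ t, t = r * (B - A) / 2 := ⟨_, rfl⟩
      have e1 : r * A = c - t := by rw [hc, ht]; ring
      have e2 : r * B = c + t := by rw [hc, ht]; ring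
      have f1 := sc_conc hr h.conc
      have f2 := sc_cont hr h.cont
      have f3 := sc_four hr h
      have f4 := sc_area hr h
      have f5 : ∀ s ∈ Icc (r * A) (r * B), 0 ≤ sc r L s := fun s hs => h.nonneg _ (sc_mem hr hs)
      have f6 : r * u ∈ Icc (r * A) (r * B) :=
        ⟨mul_le_mul_of_nonneg_left hu.1 hr.le, mul_le_mul_of_nonneg_left hu.2 hr.le⟩
      have f7 : sc r L (r * u) = L u := by
        unfold sc; rw [mul_div_cancel_left₀ _ hr.ne']
      have hw1 := wd_pos (K := K) (r := r) hC θ₁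
      rw [e1, e2] at f1 f2 f4 f5 f6
      simp only [e1, e2] at f3
      have h1 := hlb (Complex.arg z)
      rw [← h.wid] at h1
      have key := lower (h := t) (c := c) (m := r * u) (by linarith) f1 f2 f5 f6
        (by rw [f7]; linarith) f3
      rw [f4, f7] at key
      have : 4 * Real.pi / 3 * wd K θ₁ ≤ 4 * Real.pi / 3 * L u :=
        mul_le_mul_of_nonneg_left (hd.trans hdu) (by positivity)
      linarith
    nlinarith

end Pool.Agent.TH234.BK
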