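import Mathlib

set_option autoImplicit false

open MeasureTheory Set Real

namespace Pool.Agent.TH234.BK

/-- `1/x - cot x` is nondecreasing on `(0,π)`. -/
theorem kmono {u v : ℝ} (hv : 0 < v) (huv : v ≤ u) (hu : u < π) :
    1 / v - cos v / sin v ≤ 1 / u - cos u / sin u := by
  have hmono : MonotoneOn (fun x : ℝ => 1 / x - cos x / sin x) (Ioo 0 π) := by
    apply monotoneOn_of_deriv_nonneg (convex_Ioo 0 π)
    · apply ContinuousOn.sub
      · exact continuousOn_const.div continuousOn_id (fun x hx => hx.1.ne')
      · exact continuous_cos.continuousOn.div continuous_sin.continuousOn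
          (fun x hx => (sin_pos_of_pos_of_lt_pi hx.1 hx.2).ne')
    · rw [interior_Ioo]
      intro x hx
      have hs := (sin_pos_of_pos_of_lt_pi hx.1 hx.2).ne'
      exact (((differentiableAt_const _).div differentiableAt_id hx.1.ne').sub
        (differentiableAt_cos.div differentiableAt_sin hs)).differentiableWithinAt
    · rw [interior_Ioo]
      intro x hx
      have hs := sin_pos_of_pos_of_lt_pi hx.1 hx.2
      have h1 : HasDerivAt (fun x : ℝ => 1 / x - cos x / sin x)
          ((0 * x - 1 * 1) / x ^ 2 - ((-sin x) * sin x - cos x * cos x) / sin x ^ 2) x :=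
        ((hasDerivAt_const x (1:ℝ)).div (hasDerivAt_id x) hx.1.ne').sub
          ((hasDerivAt_cos x).div (hasDerivAt_sin x) hs.ne')
      rw [h1.deriv]
      have h2 : (0 * x - 1 * 1) / x ^ 2 - ((-sin x) * sin x - cos x * cos x) / sin x ^ 2
          = 1 / sin x ^ 2 - 1 / x ^ 2 := by
        have h3 := sin_sq_add_cos_sq x
        have h4 : -sin x * sin x - cos x * cos x = -1 := by nlinarith
        rw [h4]; ring
      rw [h2, sub_nonneg]
      apply one_div_le_one_div_of_le (by positivity)
      have h5 := sin_lt hx.1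
      nlinarith
  exact hmono ⟨hv, by linarith⟩ ⟨by linarith, hu⟩ huv

theorem knonneg {u : ℝ} (hu0 : 0 < u) (hu : u < π) : 0 ≤ 1 / u - cos u / sin u := by
  have hs := sin_pos_of_pos_of_lt_pi hu0 hu
  rw [sub_nonneg, div_le_div_iff₀ hs hu0, one_mul]
  -- u cos u ≤ sin u
  rcases le_or_gt (π / 2) u with h | h
  · have h1 : cos u ≤ 0 := cos_nonpos_of_pi_div_two_le_of_le h (by linarith)
    nlinarith
  · have h1 : 0 < cos u := cos_pos_of_mem_Ioo ⟨by linarith, h⟩
    have h2 := Real.lt_tan hu0 h
    rw [tan_eq_sin_div_cos, lt_div_iff₀ h1] at h2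
    linarith

/-- key trigonometric inequality -/
theorem key_trig {u v : ℝ} (hu0 : 0 < u) (hu : u < π) (hv : |v| ≤ u) (hv2 : |v| < π) :
    (u - v) * (sin u * sin v) ≤ u * v * sin (u - v) := by
  have hs := sin_pos_of_pos_of_lt_pi hu0 hu
  rcases lt_trichotomy v 0 with h | h | h
  · obtain ⟨w, rfl⟩ : ∃ w, v = -w := ⟨-v, by ring⟩
    have hw : 0 < w := by linarith
    rw [abs_neg, abs_of_pos hw] at hv hv2
    have hsw := sin_pos_of_pos_of_lt_pi hw hv2
    have k1 := knonneg hu0 hu
    have k2 := knonneg hw hv2
    rw [sub_neg_eq_add, sin_neg, sin_add]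
    have h1 : 0 ≤ ((1 / u - cos u / sin u) + (1 / w - cos w / sin w)) * (u * w * (sin u * sin w)) :=
      mul_nonneg (by linarith) (by positivity)
    have h2 : ((1 / u - cos u / sin u) + (1 / w - cos w / sin w)) * (u * w * (sin u * sin w))
        = (u + w) * (sin u * sin w) - u * w * (sin u * cos w + cos u * sin w) := by
      field_simp
      ring
    rw [h2] at h1
    linarith
  · subst h; simp
  · rw [abs_of_pos h] at hv hv2
    have hsv := sin_pos_of_pos_of_lt_pi h hv2
    have k1 := kmono h hv hu
    rw [sin_sub]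
    have h1 : 0 ≤ ((1 / u - cos u / sin u) - (1 / v - cos v / sin v)) * (u * v * (sin u * sin v)) :=
      mul_nonneg (by linarith) (by positivity)
    have h2 : ((1 / u - cos u / sin u) - (1 / v - cos v / sin v)) * (u * v * (sin u * sin v))
        = u * v * (sin u * cos v - cos u * sin v) - (u - v) * (sin u * sin v) := by
      field_simp
      ring
    rw [h2] at h1
    linarith

end Pool.Agent.TH234.BK
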