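import Pool.Agent.TH234.BK.OneA

set_option autoImplicit false

open MeasureTheory Set Real

namespace Pool.Agent.TH234.BK

/-- explicit integral -/
theorem int_lin_W (q h lam : ℝ) :
    ∫ s in q..h, (s - q) * (1 + lam * cos s) =
      (h - q) ^ 2 / 2 + lam * ((h - q) * sin h + cos h - cos q) := by
  have hd : ∀ x ∈ uIcc q h, HasDerivAt
      (fun s : ℝ => (s - q) ^ 2 / 2 + lam * ((s - q) * sin s + cos s))
      ((x - q) * (1 + lam * cos x)) x := by
    intro x _
    have h1 : HasDerivAt (fun s : ℝ => s - q) 1 x := (hasDerivAt_id x).sub_const q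
    have h2 := ((h1.pow 2).div_const 2).add
      (((h1.mul (hasDerivAt_sin x)).add (hasDerivAt_cos x)).const_mul lam)
    refine h2.congr_deriv ?_
    push_cast
    ring
  rw [intervalIntegral.integral_eq_sub_of_hasDerivAt hd
    (Continuous.intervalIntegrable (by fun_prop) _ _)]
  simp
  ring

theorem Phi_nonneg {h q : ℝ} (h1 : π < h) (h2 : h < 2 * π) (hq0 : 0 ≤ q) (hq : q ≤ π) :
    0 ≤ ∫ s in q..h, (s - q) * (1 + (h - π) / sin (h - π) * cos s) := by
  rw [int_lin_W]
  have hs : 0 < sin (h - π) := sin_pos_of_pos_of_lt_pi (by linarith) (by linarith)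
  obtain ⟨u, hu⟩ : ∃ u, u = (h - q) / 2 := ⟨_, rfl⟩
  obtain ⟨v, hv⟩ : ∃ v, v = (π - q - (h - π)) / 2 := ⟨_, rfl⟩
  have e1 : sin h = - sin (h - π) := by rw [sin_sub_pi]; ring
  have e2 : cos h = - cos (h - π) := by rw [cos_sub_pi]; ring
  have e3 : cos q = - cos (π - q) := by rw [cos_pi_sub]; ring
  have e4 : h - π = u - v := by rw [hu, hv]; ring
  have e5 : π - q = u + v := by rw [hu, hv]; ring
  have e6 : h - q = 2 * u := by rw [hu]; ring
  have kt := key_trig (u := u) (v := v) (by linarith) (by linarith)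
    (abs_le.2 ⟨by linarith, by linarith⟩) (abs_lt.2 ⟨by linarith, by linarith⟩)
  rw [e1, e2, e3, e4, e5, e6]
  rw [e4] at hs
  have key : (2 * u) ^ 2 / 2 + (u - v) / sin (u - v) *
      (2 * u * -sin (u - v) + -cos (u - v) - -cos (u + v))
      = 2 * (u * v * sin (u - v) - (u - v) * (sin u * sin v)) / sin (u - v) := by
    have e7 : cos (u + v) - cos (u - v) = - 2 * (sin u * sin v) := by
      rw [cos_add, cos_sub]; ring
    have e8 : 2 * u * -sin (u - v) + -cos (u - v) - -cos (u + v)
        = - (2 * u) * sin (u - v) - 2 * (sin u * sin v) := by linarith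
    rw [e8]
    field_simp
    ring
  rw [key]
  exact div_nonneg (by linarith) hs.le

/-- Upper bound for the integral of a concave function: half interval. -/
theorem upper_half {h : ℝ} (h1 : π < h) (h2 : h < 2 * π) {G : ℝ → ℝ}
    (hG : ConcaveOn ℝ (Icc 0 h) G) (hGc : ContinuousOn G (Icc 0 h))
    (hG0 : ∀ s ∈ Icc 0 h, G s ≤ G 0) (hcos : ∫ s in (0:ℝ)..h, G s * cos s = 0) :
    ∫ s in (0:ℝ)..h, G s ≤ π * G 0 := by
  have hpi := pi_pos
  have hs : 0 < sin (h - π) := sin_pos_of_pos_of_lt_pi (by linarith) (by linarith)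
  obtain ⟨lam, hlam⟩ : ∃ lam, lam = (h - π) / sin (h - π) := ⟨_, rfl⟩
  have hlam1 : 1 < lam := by
    rw [hlam, one_lt_div hs]
    exact sin_lt (by linarith)
  have hlam0 : 0 < lam := by linarith
  have hlams : lam * sin (h - π) = h - π := by rw [hlam, div_mul_cancel₀ _ hs.ne']
  obtain ⟨W, hW⟩ : ∃ W : ℝ → ℝ, W = fun s => 1 + lam * cos s := ⟨_, rfl⟩
  have hWc : Continuous W := by rw [hW]; fun_prop
  obtain ⟨g, hg⟩ : ∃ g : ℝ → ℝ, g = fun s => G 0 - G s := ⟨_, rfl⟩
  have hgc : ContinuousOn g (Icc 0 h) := by rw [hg]; exact continuousOn_const.sub hGc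
  have hgconv : ConvexOn ℝ (Icc 0 h) g := by
    rw [hg]
    exact (convexOn_const (G 0) (convex_Icc 0 h)).sub hG
  have hg0 : g 0 = 0 := by rw [hg]; simp
  have hgn : ∀ s ∈ Icc 0 h, 0 ≤ g s := by
    intro s hs'; rw [hg]; have := hG0 s hs'; simp only []; linarith
  have huI : uIcc 0 h = Icc 0 h := uIcc_of_le (by linarith)
  -- integrals
  have i1 : IntervalIntegrable (fun s => G s) volume 0 h :=
    ContinuousOn.intervalIntegrable (by rw [huI]; exact hGc)
  have i2 : IntervalIntegrable (fun s => G s * cos s) volume 0 h :=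
    ContinuousOn.intervalIntegrable (by rw [huI]; exact hGc.mul continuous_cos.continuousOn)
  have i3 : IntervalIntegrable W volume 0 h := hWc.intervalIntegrable _ _
  have igW : IntervalIntegrable (fun s => g s * W s) volume 0 h :=
    ContinuousOn.intervalIntegrable (by rw [huI]; exact hgc.mul hWc.continuousOn)
  have hWint : ∫ s in (0:ℝ)..h, W s = π := by
    rw [hW, intervalIntegral.integral_add (by simp) ((Continuous.intervalIntegrable (by fun_prop) _ _)),
      intervalIntegral.integral_const, intervalIntegral.integral_const_mul, integral_cos, sin_zero]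
    have : sin h = - sin (h - π) := by rw [sin_sub_pi]; ring
    rw [this]
    simp only [smul_eq_mul]
    linarith
  have hmain : ∫ s in (0:ℝ)..h, g s * W s = π * G 0 - ∫ s in (0:ℝ)..h, G s := by
    have e : ∀ s, g s * W s = G 0 * W s - (G s + lam * (G s * cos s)) := by
      intro s; rw [hg, hW]; ring
    simp_rw [e]
    rw [intervalIntegral.integral_sub (i3.const_mul _) (i1.add (i2.const_mul _)),
      intervalIntegral.integral_add i1 (i2.const_mul _), intervalIntegral.integral_const_mul,
      intervalIntegral.integral_const_mul, hcos, hWint]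
    ring
  suffices hsuff : 0 ≤ ∫ s in (0:ℝ)..h, g s * W s by linarith
  -- zeros of W
  obtain ⟨z1, hz1⟩ : ∃ z1, z1 = arccos (-(1 / lam)) := ⟨_, rfl⟩
  have hl1 : 1 / lam < 1 := by rw [div_lt_one hlam0]; exact hlam1
  have hl0 : 0 < 1 / lam := by positivity
  have hcz1 : cos z1 = -(1 / lam) := by rw [hz1, cos_arccos (by linarith) (by linarith)]
  have hz1pi : z1 < π := by
    rcases lt_or_eq_of_le (arccos_le_pi (-(1 / lam))) with h | h
    · rw [hz1]; exact h
    · exfalso
      rw [← hz1] at h
      rw [h, cos_pi] at hcz1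
      linarith
  have hz10 : 0 < z1 := by
    rcases lt_or_eq_of_le (arccos_nonneg (-(1 / lam))) with h | h
    · rw [hz1]; exact h
    · exfalso
      rw [← hz1] at h
      rw [← h, cos_zero] at hcz1
      linarith
  obtain ⟨z2, hz2⟩ : ∃ z2, z2 = 2 * π - z1 := ⟨_, rfl⟩
  have hz12 : z1 < z2 := by linarith
  have hcz2 : cos z2 = -(1 / lam) := by rw [hz2, cos_two_pi_sub, hcz1]
  have hlamdiv : lam * (1 / lam) = 1 := by field_simp
  have Wpos1 : ∀ s, 0 ≤ s → s ≤ z1 → 0 ≤ W s := by
    intro s hs0 hs1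
    have := cos_le_cos_of_nonneg_of_le_pi hs0 hz1pi.le hs1
    rw [hcz1] at this
    rw [hW]
    simp only []
    nlinarith
  have Wneg : ∀ s, z1 ≤ s → s ≤ z2 → W s ≤ 0 := by
    intro s hs0 hs1
    have : cos s ≤ -(1 / lam) := by
      rcases le_or_gt s π with h | h
      · have := cos_le_cos_of_nonneg_of_le_pi hz10.le h hs0
        rwa [hcz1] at this
      · have h3 := cos_le_cos_of_nonneg_of_le_pi (x := z1) (y := 2 * π - s) hz10.le (by linarith)
          (by linarith)
        rw [cos_two_pi_sub, hcz1] at h3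
        exact h3
    rw [hW]
    simp only []
    nlinarith
  have Wpos2 : ∀ s, z2 ≤ s → s ≤ 2 * π → 0 ≤ W s := by
    intro s hs0 hs1
    have h3 := cos_le_cos_of_nonneg_of_le_pi (x := 2 * π - s) (y := z1) (by linarith) hz1pi.le
      (by linarith)
    rw [cos_two_pi_sub, hcz1] at h3
    rw [hW]
    simp only []
    nlinarith
  -- W h > 0 hence z2 ≤ h
  have hWh : 0 ≤ W h := by
    have e2 : cos h = - cos (h - π) := by rw [cos_sub_pi]; ring
    rw [hW]
    simp only []
    rw [e2]
    have k := knonneg (u := h - π) (by linarith) (by linarith)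
    have h5 : lam * cos (h - π) ≤ 1 := by
      rw [sub_nonneg, div_le_div_iff₀ hs (by linarith), one_mul] at k
      rw [hlam, div_mul_eq_mul_div, div_le_one hs]
      linarith
    linarith
  have hz2h : z2 ≤ h := by
    by_contra hcon
    push Not at hcon
    have h3 := cos_lt_cos_of_nonneg_of_le_pi (x := z1) (y := 2 * π - h) hz10.le (by linarith)
      (by linarith)
    rw [cos_two_pi_sub, hcz1] at h3
    rw [hW] at hWh
    simp only [] at hWh
    nlinarith
  -- the comparison line
  obtain ⟨p, hp⟩ : ∃ p, p = (g z2 - g z1) / (z2 - z1) := ⟨_, rfl⟩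
  have hz1mem : z1 ∈ Icc 0 h := ⟨hz10.le, by linarith⟩
  have hz2mem : z2 ∈ Icc 0 h := ⟨by linarith, hz2h⟩
  have h0mem : (0:ℝ) ∈ Icc 0 h := ⟨le_rfl, by linarith⟩
  obtain ⟨l, hl⟩ : ∃ l : ℝ → ℝ, l = fun s => g z1 + p * (s - z1) := ⟨_, rfl⟩
  have hpz : p * (z2 - z1) = g z2 - g z1 := by rw [hp, div_mul_cancel₀ _ (by linarith)]
  -- outside : g ≥ l
  have gl1 : ∀ s ∈ Icc 0 z1, l s ≤ g s := by
    intro s hs'
    rcases eq_or_lt_of_le hs'.2 with h | h
    · subst h; rw [hl]; simp
    · have := hgconv.slope_mono_adjacent (x := s) (y := z1) (z := z2) ⟨hs'.1, by linarith⟩ hz2mem h hz12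
      rw [← hp, div_le_iff₀ (by linarith)] at this
      rw [hl]; simp only []; linarith
  have gl3 : ∀ s ∈ Icc z2 h, l s ≤ g s := by
    intro s hs'
    rcases eq_or_lt_of_le hs'.1 with h | h
    · subst h; rw [hl]; simp only []; linarith
    · have := hgconv.slope_mono_adjacent (x := z1) (y := z2) (z := s) hz1mem
        ⟨by linarith [hs'.1], hs'.2⟩ hz12 h
      rw [← hp, le_div_iff₀ (by linarith)] at this
      rw [hl]; simp only []; nlinarith
  have gl2 : ∀ s ∈ Icc z1 z2, g s ≤ l s := by
    intro s hs'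
    rcases eq_or_lt_of_le hs'.1 with h | h
    · subst h; rw [hl]; simp
    rcases eq_or_lt_of_le hs'.2 with h' | h'
    · subst h'; rw [hl]; simp only []; linarith
    · have := hgconv.slope_mono_adjacent (x := z1) (y := s) (z := z2) hz1mem hz2mem h h'
      rw [div_le_div_iff₀ (by linarith) (by linarith)] at this
      have h5 : (g s - l s) * (z2 - z1) ≤ 0 := by
        rw [hl]; simp only []; nlinarith
      nlinarith
  -- slope nonneg
  have hl0' : l 0 ≤ 0 := by have := gl1 0 ⟨le_rfl, hz10.le⟩; rwa [hg0] at this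
  have hgz1 : 0 ≤ g z1 := hgn z1 hz1mem
  have hp0 : 0 ≤ p := by
    rw [hl] at hl0'
    simp only [] at hl0'
    by_contra hcon
    push Not at hcon
    nlinarith
  have hcmp : ∀ s ∈ Icc 0 h, max (l s) 0 * W s ≤ g s * W s := by
    intro s hs'
    rcases le_or_gt s z1 with a | a
    · exact mul_le_mul_of_nonneg_right (max_le (gl1 s ⟨hs'.1, a⟩) (hgn s hs')) (Wpos1 s hs'.1 a)
    rcases le_or_gt s z2 with b | b
    · exact mul_le_mul_of_nonpos_right ((gl2 s ⟨a.le, b⟩).trans (le_max_left _ _)) (Wneg s a.le b)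
    · exact mul_le_mul_of_nonneg_right (max_le (gl3 s ⟨b.le, hs'.2⟩) (hgn s hs'))
        (Wpos2 s b.le (by linarith [hs'.2]))
  have hlc : Continuous l := by rw [hl]; fun_prop
  have iL : IntervalIntegrable (fun s => max (l s) 0 * W s) volume 0 h :=
    Continuous.intervalIntegrable (by fun_prop) _ _
  refine le_trans ?_ (intervalIntegral.integral_mono_on (by linarith) iL igW hcmp)
  rcases eq_or_lt_of_le hp0 with hp1 | hp1
  · -- p = 0
    have : ∀ s, max (l s) 0 * W s = 0 := by
      intro s
      have : l s ≤ 0 := by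
        rw [hl] at hl0' ⊢
        simp only [← hp1, zero_mul, add_zero] at hl0' ⊢
        exact hl0'
      rw [max_eq_right this, zero_mul]
    simp [this]
  · obtain ⟨q, hq⟩ : ∃ q, q = z1 - g z1 / p := ⟨_, rfl⟩
    have hlq : ∀ s, l s = p * (s - q) := by
      intro s; rw [hl, hq]; simp only []; field_simp; ring
    have hq1 : q ≤ z1 := by rw [hq]; linarith [div_nonneg hgz1 hp0]
    have hq0 : 0 ≤ q := by
      rw [hlq] at hl0'
      by_contra hcon
      push Not at hcon
      nlinarith
    have hcont : Continuous (fun s => max (l s) 0 * W s) := by fun_prop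
    have hsplit : ∫ s in (0:ℝ)..h, max (l s) 0 * W s = (∫ s in (0:ℝ)..q, max (l s) 0 * W s) +
        ∫ s in q..h, max (l s) 0 * W s :=
      (intervalIntegral.integral_add_adjacent_intervals (hcont.intervalIntegrable _ _)
        (hcont.intervalIntegrable _ _)).symm
    rw [hsplit]
    have e1 : ∫ s in (0:ℝ)..q, max (l s) 0 * W s = 0 := by
      have : ∫ s in (0:ℝ)..q, max (l s) 0 * W s = ∫ s in (0:ℝ)..q, (0:ℝ) := by
        apply intervalIntegral.integral_congr
        intro s hs'
        rw [uIcc_of_le hq0] at hs'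
        have h9 : l s ≤ 0 := by rw [hlq]; exact mul_nonpos_of_nonneg_of_nonpos hp0 (by linarith [hs'.2])
        simp only []
        rw [max_eq_right h9, zero_mul]
      rw [this]; simp
    have e2 : ∫ s in q..h, max (l s) 0 * W s = p * ∫ s in q..h, (s - q) * (1 + (h - π) / sin (h - π) * cos s) := by
      rw [← intervalIntegral.integral_const_mul]
      apply intervalIntegral.integral_congr
      intro s hs'
      rw [uIcc_of_le (by linarith)] at hs'
      have h9 : 0 ≤ l s := by rw [hlq]; exact mul_nonneg hp0 (by linarith [hs'.1])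
      simp only []
      rw [max_eq_left h9, hlq, hW, hlam]
      ring
    rw [e1, e2, zero_add]
    exact mul_nonneg hp0 (Phi_nonneg h1 h2 hq0 (by linarith))


/-- Upper bound: if `f ≥ 0` is concave on an interval of half length `h ∈ (π, 2π)`, bounded by `M`
and orthogonal to the centred cosine, then its integral is at most `2 π M`. -/
theorem upper {h c M : ℝ} (h1 : π < h) (h2 : h < 2 * π) {f : ℝ → ℝ}
    (hf : ConcaveOn ℝ (Icc (c - h) (c + h)) f) (hfc : ContinuousOn f (Icc (c - h) (c + h)))
    (hM : ∀ s ∈ Icc (c - h) (c + h), f s ≤ M)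
    (hcos : ∫ s in (c - h)..(c + h), f s * cos (s - c) = 0) :
    ∫ s in (c - h)..(c + h), f s ≤ 2 * π * M := by
  have hh : 0 < h := by linarith [pi_pos]
  -- the even part
  obtain ⟨G, hG⟩ : ∃ G : ℝ → ℝ, G = fun s => f (c + s) + f (c - s) := ⟨_, rfl⟩
  have m1 : ∀ s ∈ Icc 0 h, c + s ∈ Icc (c - h) (c + h) := fun s hs =>
    ⟨by linarith [hs.1], by linarith [hs.2]⟩
  have m2 : ∀ s ∈ Icc 0 h, c - s ∈ Icc (c - h) (c + h) := fun s hs =>
    ⟨by linarith [hs.2], by linarith [hs.1]⟩
  have hGc : ContinuousOn G (Icc 0 h) := by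
    rw [hG]
    exact (hfc.comp (by fun_prop) m1).add (hfc.comp (by fun_prop) m2)
  have hGconc : ConcaveOn ℝ (Icc 0 h) G := by
    refine ⟨convex_Icc 0 h, ?_⟩
    intro x hx y hy a b ha hb hab
    have k1 := hf.2 (m1 x hx) (m1 y hy) ha hb hab
    have k2 := hf.2 (m2 x hx) (m2 y hy) ha hb hab
    rw [hG]
    simp only [smul_eq_mul] at k1 k2 ⊢
    have e1 : a * (c + x) + b * (c + y) = c + (a * x + b * y) := by
      linear_combination c * hab
    have e2 : a * (c - x) + b * (c - y) = c - (a * x + b * y) := by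
      linear_combination c * hab
    rw [e1] at k1
    rw [e2] at k2
    linarith
  have hGmax : ∀ s ∈ Icc 0 h, G s ≤ G 0 := by
    intro s hs
    have k1 := hf.2 (m1 s hs) (m2 s hs) (show (0:ℝ) ≤ 1 / 2 by norm_num)
      (show (0:ℝ) ≤ 1 / 2 by norm_num) (by norm_num)
    simp only [smul_eq_mul] at k1
    have e1 : 1 / 2 * (c + s) + 1 / 2 * (c - s) = c := by ring
    rw [e1] at k1
    rw [hG]
    simp only [add_zero, sub_zero]
    linarith
  have split : ∀ F : ℝ → ℝ, ContinuousOn F (Icc (c - h) (c + h)) →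
      ∫ s in (c - h)..(c + h), F s = ∫ s in (0:ℝ)..h, (F (c + s) + F (c - s)) := by
    intro F hF
    have j1 : IntervalIntegrable F volume (c - h) c :=
      ContinuousOn.intervalIntegrable (by
        rw [uIcc_of_le (by linarith)]
        exact hF.mono (Icc_subset_Icc le_rfl (by linarith)))
    have j2 : IntervalIntegrable F volume c (c + h) :=
      ContinuousOn.intervalIntegrable (by
        rw [uIcc_of_le (by linarith)]
        exact hF.mono (Icc_subset_Icc (by linarith) le_rfl))
    rw [← intervalIntegral.integral_add_adjacent_intervals j1 j2]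
    rw [intervalIntegral.integral_add]
    · rw [intervalIntegral.integral_comp_add_left (fun x => F x),
        intervalIntegral.integral_comp_sub_left (fun x => F x)]
      simp only [add_zero, sub_zero]
      ring
    · exact ContinuousOn.intervalIntegrable (by
        rw [uIcc_of_le hh.le]; exact hF.comp (by fun_prop) m1)
    · exact ContinuousOn.intervalIntegrable (by
        rw [uIcc_of_le hh.le]; exact hF.comp (by fun_prop) m2)
  have hcos' : ∫ s in (0:ℝ)..h, G s * cos s = 0 := by
    rw [split (fun s => f s * cos (s - c)) (hfc.mul (by fun_prop))] at hcos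
    rw [← hcos]
    congr 1
    funext s
    rw [hG]
    simp only []
    rw [show c + s - c = s by ring, show c - s - c = -s by ring, cos_neg]
    ring
  have key := upper_half h1 h2 hGconc hGc hGmax hcos'
  rw [split f hfc]
  have e3 : ∫ s in (0:ℝ)..h, (f (c + s) + f (c - s)) = ∫ s in (0:ℝ)..h, G s := by rw [hG]
  rw [e3]
  refine key.trans ?_
  have hc : c ∈ Icc (c - h) (c + h) := ⟨by linarith, by linarith⟩
  have := hM c hc
  rw [hG]
  simp only [add_zero, sub_zero]
  nlinarith [pi_pos]

end Pool.Agent.TH234.BK
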