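import Pool.Agent.TH234.BK.OneA2

set_option autoImplicit false

open MeasureTheory Set Real

namespace Pool.Agent.TH234.BK

/-- numeric inequality at the right end -/
theorem num1 {e : ℝ} (h0 : 0 ≤ e) (h1 : e ≤ π / 3) :
    0 < (1 - e ^ 2 / 8) * (π - (π + e) ^ 3 / 24) - (π / 3 - e) * ((π + e) / 2) := by
  have hp1 := pi_gt_d4
  have hp2 := pi_lt_d4
  have e1 : e ≤ 1.0472 := by linarith
  have q2 : π ^ 2 ≤ 9.8698 := by nlinarith
  have q2' : 9.869 ≤ π ^ 2 := by nlinarith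
  have q3 : π ^ 3 ≤ 31.0067 := by nlinarith
  have c0 : 0.2044 ≤ π - π ^ 3 / 24 - π ^ 2 / 6 := by nlinarith
  have c1 : -0.1867 ≤ -(π ^ 2 / 8) - (π / 3 - π) / 2 := by nlinarith
  have c2 : -0.1240 ≤ -(π / 8) - (π - π ^ 3 / 24) / 8 + 1 / 2 := by
    nlinarith
  have c3 : 0.1124 ≤ π ^ 2 / 64 - 1 / 24 := by nlinarith
  have c4 : 0.049 ≤ π / 64 := by nlinarith
  have key : (1 - e ^ 2 / 8) * (π - (π + e) ^ 3 / 24) - (π / 3 - e) * ((π + e) / 2)
      = (π - π ^ 3 / 24 - π ^ 2 / 6) + (-(π ^ 2 / 8) - (π / 3 - π) / 2) * e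
        + (-(π / 8) - (π - π ^ 3 / 24) / 8 + 1 / 2) * e ^ 2 + (π ^ 2 / 64 - 1 / 24) * e ^ 3
        + (π / 64) * e ^ 4 + e ^ 5 / 192 := by ring
  rw [key]
  have t1 := mul_le_mul_of_nonneg_right c1 h0
  have t2 := mul_le_mul_of_nonneg_right c2 (pow_nonneg h0 2)
  have t3 := mul_le_mul_of_nonneg_right c3 (pow_nonneg h0 3)
  have t4 := mul_le_mul_of_nonneg_right c4 (pow_nonneg h0 4)
  have t5 : 0 ≤ e ^ 5 / 192 := by positivity
  have main : 0 < 0.2044 - 0.1867 * e - 0.1240 * e ^ 2 + 0.1124 * e ^ 3 + 0.049 * e ^ 4 := by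
    nlinarith [sq_nonneg (e - 0.87), sq_nonneg (e ^ 2 - 0.87 ^ 2), mul_nonneg h0 (sq_nonneg (e - 0.87)),
      mul_nonneg h0 h0, mul_nonneg h0 (sub_nonneg.2 e1)]
  linarith

theorem num0 {e : ℝ} (h0 : 0 ≤ e) (h1 : e ≤ π / 3) :
    0 < (1 - e ^ 2 / 8) * ((1 - 0.3 ^ 2 / 6) * (π + e) - e) - (π / 3 - e) * (π + e - 0.3) := by
  have hp1 := pi_gt_d4
  have hp2 := pi_lt_d4
  have e1 : e ≤ 1.0472 := by linarith
  have q2 : π ^ 2 ≤ 9.8698 := by nlinarith
  have key : (1 - e ^ 2 / 8) * ((1 - 0.3 ^ 2 / 6) * (π + e) - e) - (π / 3 - e) * (π + e - 0.3)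
      = (0.985 * π - π * (π - 0.3) / 3) + (-0.015 - π / 3 + π - 0.3) * e
        + (1 - 0.985 * π / 8) * e ^ 2 + 0.015 / 8 * e ^ 3 := by ring
  rw [key]
  have t0 : 0 < 0.985 * π - π * (π - 0.3) / 3 := by nlinarith
  have t1 : 0 ≤ (-0.015 - π / 3 + π - 0.3) * e := mul_nonneg (by linarith) h0
  have t2 : 0 ≤ (1 - 0.985 * π / 8) * e ^ 2 := mul_nonneg (by linarith) (by positivity)
  have t3 : 0 ≤ 0.015 / 8 * e ^ 3 := by positivity
  linarith

/-- polynomial inequality on the whole range -/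
theorem num2 {e al : ℝ} (h0 : 0 ≤ e) (h1 : e ≤ π / 3) (ha : 0.3 ≤ al) (hb : al ≤ (π + e) / 2) :
    0 < (1 - e ^ 2 / 8) * ((1 - al ^ 2 / 6) * (π + e) - e) - (π / 3 - e) * (π + e - al) := by
  have hp1 := pi_gt_d4
  have hp2 := pi_lt_d4
  have n0 := num0 h0 h1
  have n1 := num1 h0 h1
  have e1 : e ≤ 1.0472 := by linarith
  have n1' : 0 < (1 - e ^ 2 / 8) * ((1 - ((π + e) / 2) ^ 2 / 6) * (π + e) - e)
      - (π / 3 - e) * (π + e - (π + e) / 2) := by
    have : (1 - ((π + e) / 2) ^ 2 / 6) * (π + e) - e = π - (π + e) ^ 3 / 24 := by ring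
    rw [this]
    have : π + e - (π + e) / 2 = (π + e) / 2 := by ring
    rw [this]
    exact n1
  have hq : 0 < 1 - e ^ 2 / 8 := by nlinarith
  have hw : 0 < (π + e) / 2 - 0.3 := by linarith
  have hA : 0 ≤ (1 - e ^ 2 / 8) * (π + e) / 6 * ((al - 0.3) * ((π + e) / 2 - al)) := by
    apply mul_nonneg
    · have : 0 ≤ π + e := by linarith
      positivity
    · exact mul_nonneg (by linarith) (by linarith)
  have key : ((1 - e ^ 2 / 8) * ((1 - al ^ 2 / 6) * (π + e) - e) - (π / 3 - e) * (π + e - al))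
      * ((π + e) / 2 - 0.3)
      = ((π + e) / 2 - al) * ((1 - e ^ 2 / 8) * ((1 - 0.3 ^ 2 / 6) * (π + e) - e)
          - (π / 3 - e) * (π + e - 0.3))
        + (al - 0.3) * ((1 - e ^ 2 / 8) * ((1 - ((π + e) / 2) ^ 2 / 6) * (π + e) - e)
          - (π / 3 - e) * (π + e - (π + e) / 2))
        + (1 - e ^ 2 / 8) * (π + e) / 6 * ((al - 0.3) * ((π + e) / 2 - al))
          * ((π + e) / 2 - 0.3) := by ring
  have hpos : 0 < ((1 - e ^ 2 / 8) * ((1 - al ^ 2 / 6) * (π + e) - e) - (π / 3 - e) * (π + e - al))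
      * ((π + e) / 2 - 0.3) := by
    rw [key]
    have k1 : 0 ≤ ((π + e) / 2 - al) * ((1 - e ^ 2 / 8) * ((1 - 0.3 ^ 2 / 6) * (π + e) - e)
          - (π / 3 - e) * (π + e - 0.3)) := mul_nonneg (by linarith) n0.le
    have k2 : 0 ≤ (al - 0.3) * ((1 - e ^ 2 / 8) * ((1 - ((π + e) / 2) ^ 2 / 6) * (π + e) - e)
          - (π / 3 - e) * (π + e - (π + e) / 2)) := mul_nonneg (by linarith) n1'.le
    have k3 := mul_nonneg hA hw.le
    rcases eq_or_lt_of_le ha with h | h
    · have : 0 < ((π + e) / 2 - al) * ((1 - e ^ 2 / 8) * ((1 - 0.3 ^ 2 / 6) * (π + e) - e)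
          - (π / 3 - e) * (π + e - 0.3)) := mul_pos (by linarith) n0
      linarith
    · have : 0 < (al - 0.3) * ((1 - e ^ 2 / 8) * ((1 - ((π + e) / 2) ^ 2 / 6) * (π + e) - e)
          - (π / 3 - e) * (π + e - (π + e) / 2)) := mul_pos (by linarith) n1'
      linarith
  exact (pos_iff_pos_of_mul_pos hpos).2 hw

/-- main numeric inequality of regime I -/
theorem regime1 {h al be : ℝ} (h1 : π < h) (h2 : h ≤ 4 * π / 3) (ha : 0.3 ≤ al) (hab : al ≤ be)
    (hs : al + be = h) :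
    4 * π / 3 < h + sin (h / 2) * (sin al / al + sin be / be) := by
  have hp1 := pi_gt_d4
  have hp2 := pi_lt_d4
  obtain ⟨e, he⟩ : ∃ e, e = h - π := ⟨_, rfl⟩
  have hh : h = π + e := by linarith
  have he0 : 0 < e := by linarith
  have he1 : e ≤ π / 3 := by linarith
  have al0 : 0 < al := by linarith
  have be0 : 0 < be := by linarith
  have n2 := num2 he0.le he1 ha (by linarith : al ≤ (π + e) / 2)
  have s1 : al - al ^ 3 / 6 ≤ sin al := (sin_gt_sub_cube al0).le
  have s2 : sin al - e ≤ sin be := by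
    have : be = π - (al - e) := by linarith
    rw [this, sin_pi_sub]
    have := abs_sin_sub_sin_le al (al - e)
    rw [abs_le] at this
    have h3 : |al - (al - e)| = e := by rw [show al - (al - e) = e by ring, abs_of_pos he0]
    rw [h3] at this
    linarith [this.2]
  have c1 : 1 - e ^ 2 / 8 ≤ sin (h / 2) := by
    have : h / 2 = π / 2 + e / 2 := by linarith
    rw [this, add_comm, sin_add_pi_div_two]
    have := one_sub_sq_div_two_le_cos (x := e / 2)
    nlinarith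
  have hq : 0 < 1 - e ^ 2 / 8 := by
    have : e ≤ 1.0472 := by linarith
    nlinarith
  obtain ⟨N, hN⟩ : ∃ N, N = (1 - al ^ 2 / 6) * (π + e) - e := ⟨_, rfl⟩
  rw [← hN] at n2
  have hbe : π + e - al = be := by linarith
  rw [hbe] at n2
  have hN0 : 0 < N := by
    have h5 : 0 ≤ (π / 3 - e) * be := mul_nonneg (by linarith) be0.le
    have h6 : 0 < (1 - e ^ 2 / 8) * N := by linarith
    exact (pos_iff_pos_of_mul_pos h6).1 hq
  have hsum : N / be ≤ sin al / al + sin be / be := by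
    have h7 : 1 - al ^ 2 / 6 ≤ sin al / al := by
      rw [le_div_iff₀ al0]; nlinarith
    have h8 : (sin al - e) / be ≤ sin be / be := div_le_div_of_nonneg_right s2 be0.le
    have h9 : N / be ≤ sin al / al + (sin al - e) / be := by
      have h10 : sin al / al + (sin al - e) / be = ((sin al / al) * (π + e) - e) / be := by
        rw [show π + e = al + be by linarith]
        field_simp
        ring
      rw [h10, hN]
      apply div_le_div_of_nonneg_right _ be0.le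
      have : (1 - al ^ 2 / 6) * (π + e) ≤ sin al / al * (π + e) :=
        mul_le_mul_of_nonneg_right h7 (by linarith)
      linarith
    linarith
  have hfin : (1 - e ^ 2 / 8) * (N / be) ≤ sin (h / 2) * (sin al / al + sin be / be) := by
    apply mul_le_mul c1 hsum (by positivity) (by linarith)
  have h11 : π / 3 - e < (1 - e ^ 2 / 8) * (N / be) := by
    rw [← mul_div_assoc, lt_div_iff₀ be0]
    linarith
  linarith

/-- main numeric inequality of regime II -/
theorem regime2 {h a b : ℝ} (h1 : π < h) (h2 : h ≤ 4 * π / 3) (hb : 0 ≤ b) (hb2 : b ≤ 0.6)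
    (hs : a + b = 2 * h) :
    4 * π / 3 < h + 1.15 * (1 - b ^ 2 / 6 - sin a / a) := by
  have hp1 := pi_gt_d4
  have hp2 := pi_lt_d4
  obtain ⟨e, he⟩ : ∃ e, e = h - π := ⟨_, rfl⟩
  have he0 : 0 < e := by linarith
  have he1 : e ≤ π / 3 := by linarith
  have ha : 5.68 ≤ a := by linarith
  have hsin : sin a ≤ 2 * e := by
    have : a = (2 * e - b) + 2 * π := by linarith
    rw [this, sin_add_two_pi]
    rcases le_or_gt 0 (2 * e - b) with h | h
    · linarith [sin_le h]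
    · have := sin_nonpos_of_nonpos_of_neg_pi_le h.le (by linarith)
      linarith
  have h3 : sin a / a ≤ 0.3522 * e := by
    rw [div_le_iff₀ (by linarith)]
    nlinarith
  nlinarith

end Pool.Agent.TH234.BK
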