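import Pool.Agent.TH234.BK.OneB

set_option autoImplicit false

open MeasureTheory Set Real

namespace Pool.Agent.TH234.BK

/-- chord bound for a nonnegative concave function -/
theorem chord_le {a M : ℝ} (ha : 0 < a) {F : ℝ → ℝ} (hF : ConcaveOn ℝ (Icc 0 a) F)
    (hpos : ∀ y ∈ Icc 0 a, 0 ≤ F y) (hM : F 0 = M) {y : ℝ} (hy : y ∈ Icc 0 a) :
    M * (1 - y / a) ≤ F y := by
  have h0 : (0:ℝ) ∈ Icc 0 a := ⟨le_rfl, ha.le⟩
  have h1 : a ∈ Icc 0 a := ⟨ha.le, le_rfl⟩
  have hya : 0 ≤ y / a := div_nonneg hy.1 ha.le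
  have hya1 : y / a ≤ 1 := (div_le_one ha).2 hy.2
  have := hF.2 h0 h1 (show 0 ≤ 1 - y / a by linarith) hya (by ring)
  simp only [smul_eq_mul, mul_zero, zero_add] at this
  rw [div_mul_cancel₀ _ ha.ne', hM] at this
  have h2 := mul_nonneg hya (hpos a h1)
  linarith

theorem int_tent_cos {a p : ℝ} (ha : 0 < a) :
    ∫ y in (0:ℝ)..a, (1 - y / a) * (1 + cos (y - p)) =
      a / 2 + sin p + (cos p - cos (a - p)) / a := by
  have hd : ∀ x ∈ uIcc 0 a, HasDerivAt
      (fun y : ℝ => (y - y ^ 2 / (2 * a)) + ((1 - y / a) * sin (y - p) - cos (y - p) / a))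
      ((1 - x / a) * (1 + cos (x - p))) x := by
    intro x _
    have h1 : HasDerivAt (fun s : ℝ => s - p) 1 x := (hasDerivAt_id x).sub_const p
    have h2 : HasDerivAt (fun s : ℝ => 1 - s / a) (-(1 / a)) x := by
      have := ((hasDerivAt_id x).div_const a).const_sub 1
      exact this
    have h3 : HasDerivAt (fun y : ℝ => y - y ^ 2 / (2 * a)) (1 - 2 * x / (2 * a)) x := by
      have h5 := ((hasDerivAt_id x).pow 2).div_const (2 * a)
      have := (hasDerivAt_id x).sub h5
      refine this.congr_deriv ?_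
      simp
    have h4 := h3.add ((h2.mul h1.sin).sub (h1.cos.div_const a))
    refine h4.congr_deriv ?_
    field_simp
    ring
  rw [intervalIntegral.integral_eq_sub_of_hasDerivAt hd
    (Continuous.intervalIntegrable (by fun_prop) _ _)]
  have : cos (0 - p) = cos p := by rw [zero_sub, cos_neg]
  have h2 : sin (0 - p) = - sin p := by rw [zero_sub, sin_neg]
  simp only [this, h2]
  field_simp
  ring

theorem int_tent_sin {a A : ℝ} (ha : 0 < a) :
    ∫ y in (0:ℝ)..a, (1 - y / a) * (1 + A * sin y) =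
      a / 2 + A * (1 - sin a / a) := by
  have hd : ∀ x ∈ uIcc 0 a, HasDerivAt
      (fun y : ℝ => (y - y ^ 2 / (2 * a)) + A * ((1 - y / a) * (-cos y) - sin y / a))
      ((1 - x / a) * (1 + A * sin x)) x := by
    intro x _
    have h2 : HasDerivAt (fun s : ℝ => 1 - s / a) (-(1 / a)) x := by
      have := ((hasDerivAt_id x).div_const a).const_sub 1
      exact this
    have h3 : HasDerivAt (fun y : ℝ => y - y ^ 2 / (2 * a)) (1 - 2 * x / (2 * a)) x := by
      have h5 := ((hasDerivAt_id x).pow 2).div_const (2 * a)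
      have := (hasDerivAt_id x).sub h5
      refine this.congr_deriv ?_
      simp
    have h4 := h3.add (((h2.mul (hasDerivAt_cos x).neg).sub ((hasDerivAt_sin x).div_const a)).const_mul A)
    refine h4.congr_deriv ?_
    simp only [Pi.neg_apply]
    field_simp
    ring
  rw [intervalIntegral.integral_eq_sub_of_hasDerivAt hd
    (Continuous.intervalIntegrable (by fun_prop) _ _)]
  simp
  field_simp
  ring

/-- Regime I: both sides at least 0.6 long. -/
theorem core1 {h a b M : ℝ} (h1 : π < h) (h2 : h ≤ 4 * π / 3) (hb : 0.6 ≤ b) (hba : b ≤ a)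
    (hs : a + b = 2 * h) (hM : 0 < M) {F G : ℝ → ℝ}
    (hF : ConcaveOn ℝ (Icc 0 a) F) (hFc : ContinuousOn F (Icc 0 a))
    (hFp : ∀ y ∈ Icc 0 a, 0 ≤ F y) (hF0 : F 0 = M)
    (hG : ConcaveOn ℝ (Icc 0 b) G) (hGc : ContinuousOn G (Icc 0 b))
    (hGp : ∀ y ∈ Icc 0 b, 0 ≤ G y) (hG0 : G 0 = M)
    (hcos : ∀ p, (∫ y in (0:ℝ)..a, F y * cos (y - p)) + (∫ y in (0:ℝ)..b, G y * cos (y + p)) = 0) :
    4 * π / 3 * M < (∫ y in (0:ℝ)..a, F y) + ∫ y in (0:ℝ)..b, G y := by
  have hb0 : 0 < b := by linarith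
  have ha0 : 0 < a := by linarith
  obtain ⟨p, hp⟩ : ∃ p, p = (a - b) / 4 := ⟨_, rfl⟩
  have iF : IntervalIntegrable F volume 0 a :=
    ContinuousOn.intervalIntegrable (by rw [uIcc_of_le ha0.le]; exact hFc)
  have iG : IntervalIntegrable G volume 0 b :=
    ContinuousOn.intervalIntegrable (by rw [uIcc_of_le hb0.le]; exact hGc)
  have iFc : IntervalIntegrable (fun y => F y * cos (y - p)) volume 0 a :=
    ContinuousOn.intervalIntegrable (by rw [uIcc_of_le ha0.le]; exact hFc.mul (by fun_prop))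
  have iGc : IntervalIntegrable (fun y => G y * cos (y + p)) volume 0 b :=
    ContinuousOn.intervalIntegrable (by rw [uIcc_of_le hb0.le]; exact hGc.mul (by fun_prop))
  have e1 : (∫ y in (0:ℝ)..a, F y) + ∫ y in (0:ℝ)..b, G y
      = (∫ y in (0:ℝ)..a, F y * (1 + cos (y - p))) + ∫ y in (0:ℝ)..b, G y * (1 + cos (y + p)) := by
    have k1 : ∫ y in (0:ℝ)..a, F y * (1 + cos (y - p)) =
        (∫ y in (0:ℝ)..a, F y) + ∫ y in (0:ℝ)..a, F y * cos (y - p) := by
      rw [← intervalIntegral.integral_add iF iFc]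
      congr 1; funext y; ring
    have k2 : ∫ y in (0:ℝ)..b, G y * (1 + cos (y + p)) =
        (∫ y in (0:ℝ)..b, G y) + ∫ y in (0:ℝ)..b, G y * cos (y + p) := by
      rw [← intervalIntegral.integral_add iG iGc]
      congr 1; funext y; ring
    rw [k1, k2]
    linarith [hcos p]
  have l1 : M * (a / 2 + sin p + (cos p - cos (a - p)) / a)
      ≤ ∫ y in (0:ℝ)..a, F y * (1 + cos (y - p)) := by
    rw [← int_tent_cos ha0, ← intervalIntegral.integral_const_mul]
    apply intervalIntegral.integral_mono_on ha0.le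
    · exact Continuous.intervalIntegrable (by fun_prop) _ _
    · exact ContinuousOn.intervalIntegrable (by rw [uIcc_of_le ha0.le]; exact hFc.mul (by fun_prop))
    · intro y hy
      rw [← mul_assoc]
      exact mul_le_mul_of_nonneg_right (chord_le ha0 hF hFp hF0 hy)
        (by linarith [neg_one_le_cos (y - p)])
  have l2 : M * (b / 2 + sin (-p) + (cos (-p) - cos (b - -p)) / b)
      ≤ ∫ y in (0:ℝ)..b, G y * (1 + cos (y + p)) := by
    rw [← int_tent_cos hb0, ← intervalIntegral.integral_const_mul]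
    apply intervalIntegral.integral_mono_on hb0.le
    · exact Continuous.intervalIntegrable (by fun_prop) _ _
    · exact ContinuousOn.intervalIntegrable (by rw [uIcc_of_le hb0.le]; exact hGc.mul (by fun_prop))
    · intro y hy
      rw [← mul_assoc, sub_neg_eq_add]
      exact mul_le_mul_of_nonneg_right (chord_le hb0 hG hGp hG0 hy)
        (by linarith [neg_one_le_cos (y + p)])
  have r1 := regime1 (h := h) (al := b / 2) (be := a / 2) h1 h2 (by linarith) (by linarith)
    (by linarith)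
  have c1 : cos p - cos (a - p) = 2 * (sin (a / 2) * sin (h / 2)) := by
    have e2 : h / 2 = a / 2 - p := by rw [hp]; linarith
    have e3 : p = a / 2 - (a / 2 - p) := by ring
    have e4 : a - p = a / 2 + (a / 2 - p) := by ring
    rw [e4, e2]
    nth_rewrite 1 [e3]
    rw [cos_sub, cos_add]
    ring
  have c2 : cos p - cos (b - -p) = 2 * (sin (b / 2) * sin (h / 2)) := by
    have e3 : cos p = cos (h / 2 - b / 2) := by congr 1; rw [hp]; linarith
    have e4 : cos (b - -p) = cos (h / 2 + b / 2) := by congr 1; rw [hp]; linarith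
    rw [e3, e4, cos_sub, cos_add]
    ring
  rw [c1] at l1
  rw [cos_neg, c2, sin_neg] at l2
  rw [e1]
  have e5 : M * (h + sin (h / 2) * (sin (b / 2) / (b / 2) + sin (a / 2) / (a / 2)))
      = M * (a / 2 + sin p + 2 * (sin (a / 2) * sin (h / 2)) / a)
        + M * (b / 2 + -sin p + 2 * (sin (b / 2) * sin (h / 2)) / b) := by
    have : h = (a + b) / 2 := by linarith
    rw [← mul_add]
    congr 1
    have e6 : sin (b / 2) / (b / 2) = 2 * sin (b / 2) / b := by field_simp
    have e7 : sin (a / 2) / (a / 2) = 2 * sin (a / 2) / a := by field_simp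
    rw [e6, e7]
    nth_rewrite 1 [this]
    ring
  have := mul_lt_mul_of_pos_left r1 hM
  rw [e5] at this
  linarith

theorem W_nonneg {x : ℝ} (h0 : 0 ≤ x) (h1 : x ≤ π / 3) : 0 ≤ 1 - 1.15 * sin x := by
  have h2 : sin x ≤ sin (π / 3) := by
    apply sin_le_sin_of_le_of_le_pi_div_two (by linarith [pi_pos]) (by linarith [pi_pos]) h1
  rw [sin_pi_div_three] at h2
  have h3 : √3 ≤ 1.7321 := by
    rw [show (1.7321:ℝ) = √(1.7321 ^ 2) by rw [sqrt_sq (by norm_num)]]
    exact sqrt_le_sqrt (by norm_num)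
  linarith

theorem int_id (x y : ℝ) : ∫ t in x..y, t = (y ^ 2 - x ^ 2) / 2 := integral_id

/-- a concave function vanishing at 0 has nonnegative integral against `1 + 1.15 sin`. -/
theorem conc_sin {a : ℝ} (ha : 2 * π - 0.6 ≤ a) (ha2 : a ≤ 8 * π / 3) {R : ℝ → ℝ}
    (hR : ConcaveOn ℝ (Icc 0 a) R) (hRc : ContinuousOn R (Icc 0 a))
    (hRp : ∀ y ∈ Icc 0 a, 0 ≤ R y) (hR0 : R 0 = 0) :
    0 ≤ ∫ y in (0:ℝ)..a, R y * (1 + 1.15 * sin y) := by
  have hp1 := pi_gt_d4
  have hp2 := pi_lt_d4
  have hpi := pi_pos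
  obtain ⟨f, hf⟩ : ∃ f : ℝ → ℝ, f = fun y => R y * (1 + 1.15 * sin y) := ⟨_, rfl⟩
  have hfc : ContinuousOn f (Icc 0 a) := by rw [hf]; exact hRc.mul (by fun_prop)
  have ii : ∀ x y, 0 ≤ x → x ≤ y → y ≤ a → IntervalIntegrable f volume x y := by
    intro x y hx hxy hy
    exact ContinuousOn.intervalIntegrable (by
      rw [uIcc_of_le hxy]; exact hfc.mono (Icc_subset_Icc hx hy))
  have split : ∫ y in (0:ℝ)..a, f y = (∫ y in (0:ℝ)..π, f y) + (∫ y in π..(4 * π / 3), f y)
      + (∫ y in (4 * π / 3)..(5 * π / 3), f y) + ∫ y in (5 * π / 3)..a, f y := by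
    rw [intervalIntegral.integral_add_adjacent_intervals (ii _ _ le_rfl hpi.le (by linarith))
      (ii _ _ hpi.le (by linarith) (by linarith)),
      intervalIntegral.integral_add_adjacent_intervals (ii _ _ le_rfl (by linarith) (by linarith))
      (ii _ _ (by linarith) (by linarith) (by linarith)),
      intervalIntegral.integral_add_adjacent_intervals (ii _ _ le_rfl (by linarith) (by linarith))
      (ii _ _ (by linarith) (by linarith) (by linarith))]
  have hpm : π ∈ Icc 0 a := ⟨hpi.le, by linarith⟩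
  have h0m : (0:ℝ) ∈ Icc 0 a := ⟨le_rfl, by linarith⟩
  have hRpi := hRp π hpm
  obtain ⟨r, hr⟩ : ∃ r, r = R π / π := ⟨_, rfl⟩
  have hr0 : 0 ≤ r := by rw [hr]; positivity
  have hrpi : R π = r * π := by rw [hr, div_mul_cancel₀ _ hpi.ne']
  -- comparison with the linear function
  have low : ∀ y ∈ Icc 0 π, r * y ≤ R y := by
    intro y hy
    have hy1 : 0 ≤ y / π := div_nonneg hy.1 hpi.le
    have hy2 : y / π ≤ 1 := (div_le_one hpi).2 hy.2
    have := hR.2 h0m hpm (show 0 ≤ 1 - y / π by linarith) hy1 (by ring)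
    simp only [smul_eq_mul, mul_zero, zero_add, hR0] at this
    rw [div_mul_cancel₀ _ hpi.ne', hrpi] at this
    have e : y / π * (r * π) = r * y := by field_simp
    linarith
  have up : ∀ y ∈ Icc π a, R y ≤ r * y := by
    intro y hy
    have hy0 : 0 < y := by linarith [hy.1]
    have hy1 : 0 ≤ π / y := by positivity
    have hy2 : π / y ≤ 1 := (div_le_one hy0).2 hy.1
    have hym : y ∈ Icc 0 a := ⟨hy0.le, hy.2⟩
    have := hR.2 h0m hym (show 0 ≤ 1 - π / y by linarith) hy1 (by ring)
    simp only [smul_eq_mul, mul_zero, zero_add, hR0] at this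
    rw [div_mul_cancel₀ _ hy0.ne', hrpi, div_mul_eq_mul_div, div_le_iff₀ hy0] at this
    have h5 : π * R y ≤ π * (r * y) := by linarith
    exact le_of_mul_le_mul_left h5 hpi
  have p1 : r * (π ^ 2 / 2) ≤ ∫ y in (0:ℝ)..π, f y := by
    have e : r * (π ^ 2 / 2) = ∫ y in (0:ℝ)..π, r * y := by
      rw [intervalIntegral.integral_const_mul, int_id]; ring
    rw [e]
    apply intervalIntegral.integral_mono_on hpi.le
      (Continuous.intervalIntegrable (by fun_prop) _ _) (ii _ _ le_rfl hpi.le (by linarith))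
    intro y hy
    have hs : 0 ≤ sin y := sin_nonneg_of_nonneg_of_le_pi hy.1 hy.2
    have h6 := low y hy
    have h7 : 0 ≤ R y := hRp y ⟨hy.1, by linarith [hy.2]⟩
    rw [hf]
    simp only []
    nlinarith [mul_nonneg h7 hs]
  have p2 : 0 ≤ ∫ y in π..(4 * π / 3), f y := by
    apply intervalIntegral.integral_nonneg (by linarith)
    intro y hy
    rw [hf]
    apply mul_nonneg (hRp y ⟨by linarith [hy.1], by linarith [hy.2]⟩)
    have := W_nonneg (x := y - π) (by linarith [hy.1]) (by linarith [hy.2])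
    rw [sin_sub_pi] at this
    linarith
  have p4 : 0 ≤ ∫ y in (5 * π / 3)..a, f y := by
    apply intervalIntegral.integral_nonneg (by linarith)
    intro y hy
    rw [hf]
    apply mul_nonneg (hRp y ⟨by linarith [hy.1], by linarith [hy.2]⟩)
    rcases le_or_gt y (2 * π) with h | h
    · have := W_nonneg (x := 2 * π - y) (by linarith) (by linarith [hy.1])
      rw [sin_two_pi_sub] at this
      linarith
    · have : 0 ≤ sin (y - 2 * π) := sin_nonneg_of_nonneg_of_le_pi (by linarith) (by linarith [hy.2])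
      rw [sin_sub_two_pi] at this
      linarith
  have p3 : -(0.15 * (r * (π ^ 2 / 2))) ≤ ∫ y in (4 * π / 3)..(5 * π / 3), f y := by
    have e : -(0.15 * (r * (π ^ 2 / 2))) = ∫ y in (4 * π / 3)..(5 * π / 3), (-0.15 * r) * y := by
      rw [intervalIntegral.integral_const_mul, int_id]; ring
    rw [e]
    apply intervalIntegral.integral_mono_on (by linarith)
      (Continuous.intervalIntegrable (by fun_prop) _ _) (ii _ _ (by linarith) (by linarith) (by linarith))
    intro y hy
    have hs : -1 ≤ sin y := neg_one_le_sin y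
    have h6 := up y ⟨by linarith [hy.1], by linarith [hy.2]⟩
    have h7 : 0 ≤ R y := hRp y ⟨by linarith [hy.1], by linarith [hy.2]⟩
    rw [hf]
    simp only []
    nlinarith [mul_nonneg h7 (show 0 ≤ 1 + sin y by linarith)]
  have e0 : ∫ y in (0:ℝ)..a, R y * (1 + 1.15 * sin y) = ∫ y in (0:ℝ)..a, f y := by rw [hf]
  rw [e0, split]
  have : 0 ≤ r * (π ^ 2 / 2) := by positivity
  linarith

/-- Regime II: one side at most 0.6 long. -/
theorem core2 {h a b M : ℝ} (h1 : π < h) (h2 : h ≤ 4 * π / 3) (hb : 0 ≤ b) (hb2 : b ≤ 0.6)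
    (hs : a + b = 2 * h) (hM : 0 < M) {F G : ℝ → ℝ}
    (hF : ConcaveOn ℝ (Icc 0 a) F) (hFc : ContinuousOn F (Icc 0 a))
    (hFp : ∀ y ∈ Icc 0 a, 0 ≤ F y) (hF0 : F 0 = M)
    (hG : ConcaveOn ℝ (Icc 0 b) G) (hGc : ContinuousOn G (Icc 0 b))
    (hGp : ∀ y ∈ Icc 0 b, 0 ≤ G y) (hG0 : G 0 = M)
    (hcos : ∀ p, (∫ y in (0:ℝ)..a, F y * cos (y - p)) + (∫ y in (0:ℝ)..b, G y * cos (y + p)) = 0) :
    4 * π / 3 * M < (∫ y in (0:ℝ)..a, F y) + ∫ y in (0:ℝ)..b, G y := by
  have hp1 := pi_gt_d4
  have hp2 := pi_lt_d4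
  have ha0 : 0 < a := by linarith
  have iF : IntervalIntegrable F volume 0 a :=
    ContinuousOn.intervalIntegrable (by rw [uIcc_of_le ha0.le]; exact hFc)
  have iG : IntervalIntegrable G volume 0 b :=
    ContinuousOn.intervalIntegrable (by rw [uIcc_of_le hb]; exact hGc)
  have iFc : IntervalIntegrable (fun y => F y * sin y) volume 0 a :=
    ContinuousOn.intervalIntegrable (by rw [uIcc_of_le ha0.le]; exact hFc.mul (by fun_prop))
  have iGc : IntervalIntegrable (fun y => G y * sin y) volume 0 b :=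
    ContinuousOn.intervalIntegrable (by rw [uIcc_of_le hb]; exact hGc.mul (by fun_prop))
  have hc := hcos (π / 2)
  have c1 : ∀ y, cos (y - π / 2) = sin y := fun y => cos_sub_pi_div_two y
  have c2 : ∀ y, cos (y + π / 2) = - sin y := fun y => cos_add_pi_div_two y
  simp only [c1, c2] at hc
  have hc' : (∫ y in (0:ℝ)..a, F y * sin y) - (∫ y in (0:ℝ)..b, G y * sin y) = 0 := by
    simp only [mul_neg, intervalIntegral.integral_neg] at hc
    linarith
  have e1 : (∫ y in (0:ℝ)..a, F y) + ∫ y in (0:ℝ)..b, G y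
      = (∫ y in (0:ℝ)..a, F y * (1 + 1.15 * sin y)) + ∫ y in (0:ℝ)..b, G y * (1 - 1.15 * sin y) := by
    have k1 : ∫ y in (0:ℝ)..a, F y * (1 + 1.15 * sin y) =
        (∫ y in (0:ℝ)..a, F y) + 1.15 * ∫ y in (0:ℝ)..a, F y * sin y := by
      rw [← intervalIntegral.integral_const_mul, ← intervalIntegral.integral_add iF (iFc.const_mul _)]
      congr 1; funext y; ring
    have k2 : ∫ y in (0:ℝ)..b, G y * (1 - 1.15 * sin y) =
        (∫ y in (0:ℝ)..b, G y) - 1.15 * ∫ y in (0:ℝ)..b, G y * sin y := by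
      rw [← intervalIntegral.integral_const_mul, ← intervalIntegral.integral_sub iG (iGc.const_mul _)]
      congr 1; funext y; ring
    rw [k1, k2]
    linarith
  -- long side
  have l1 : M * (a / 2 + 1.15 * (1 - sin a / a)) ≤ ∫ y in (0:ℝ)..a, F y * (1 + 1.15 * sin y) := by
    obtain ⟨R, hR⟩ : ∃ R : ℝ → ℝ, R = fun y => F y - M * (1 - y / a) := ⟨_, rfl⟩
    have hRc : ContinuousOn R (Icc 0 a) := by rw [hR]; exact hFc.sub (by fun_prop)
    have hRconc : ConcaveOn ℝ (Icc 0 a) R := by
      refine ⟨convex_Icc 0 a, ?_⟩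
      intro x hx y hy s t hs ht hst
      have := hF.2 hx hy hs ht hst
      rw [hR]
      simp only [smul_eq_mul] at this ⊢
      have e : s * (M * (1 - x / a)) + t * (M * (1 - y / a)) = M * (1 - (s * x + t * y) / a) := by
        have : s = 1 - t := by linarith
        rw [this]; field_simp; ring
      nlinarith
    have key := conc_sin (by linarith) (by linarith) hRconc hRc
      (fun y hy => by rw [hR]; simp only []; linarith [chord_le ha0 hF hFp hF0 hy])
      (by rw [hR]; simp [hF0])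
    have e2 : ∫ y in (0:ℝ)..a, R y * (1 + 1.15 * sin y) =
        (∫ y in (0:ℝ)..a, F y * (1 + 1.15 * sin y))
          - M * ∫ y in (0:ℝ)..a, (1 - y / a) * (1 + 1.15 * sin y) := by
      rw [← intervalIntegral.integral_const_mul, ← intervalIntegral.integral_sub]
      · congr 1; funext y; rw [hR]; ring
      · exact ContinuousOn.intervalIntegrable (by rw [uIcc_of_le ha0.le]; exact hFc.mul (by fun_prop))
      · exact Continuous.intervalIntegrable (by fun_prop) _ _
    rw [e2, int_tent_sin ha0] at key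
    linarith
  -- short side
  have l2 : M * (b / 2 - 1.15 * (b ^ 2 / 6)) ≤ ∫ y in (0:ℝ)..b, G y * (1 - 1.15 * sin y) := by
    rcases eq_or_lt_of_le hb with h | hb0
    · rw [← h]; simp
    have e3 : ∫ y in (0:ℝ)..b, (1 - y / b) * (1 - 1.15 * y) = b / 2 - 1.15 * (b ^ 2 / 6) := by
      have hd : ∀ x ∈ uIcc 0 b, HasDerivAt
          (fun y : ℝ => y - (1 / b + 1.15) * y ^ 2 / 2 + 1.15 / b * y ^ 3 / 3)
          ((1 - x / b) * (1 - 1.15 * x)) x := by
        intro x _
        have h5 := (((hasDerivAt_id x).pow 2).const_mul (1 / b + 1.15)).div_const 2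
        have h6 := (((hasDerivAt_id x).pow 3).const_mul (1.15 / b)).div_const 3
        have := ((hasDerivAt_id x).sub h5).add h6
        refine this.congr_deriv ?_
        simp
        field_simp
        ring
      rw [intervalIntegral.integral_eq_sub_of_hasDerivAt hd
        (Continuous.intervalIntegrable (by fun_prop) _ _)]
      field_simp
      ring
    rw [← e3, ← intervalIntegral.integral_const_mul]
    apply intervalIntegral.integral_mono_on hb
    · exact Continuous.intervalIntegrable (by fun_prop) _ _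
    · exact ContinuousOn.intervalIntegrable (by rw [uIcc_of_le hb]; exact hGc.mul (by fun_prop))
    · intro y hy
      have h5 := chord_le hb0 hG hGp hG0 hy
      have h6 : sin y ≤ y := sin_le hy.1
      have h7 : 0 ≤ 1 - 1.15 * y := by linarith [hy.2]
      have h8 : 0 ≤ G y := hGp y hy
      rw [← mul_assoc]
      exact (mul_le_mul_of_nonneg_right h5 h7).trans
        (mul_le_mul_of_nonneg_left (by linarith) h8)
  have r2 := mul_lt_mul_of_pos_left (regime2 h1 h2 hb hb2 hs) hM
  rw [e1]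
  have e4 : M * (h + 1.15 * (1 - b ^ 2 / 6 - sin a / a))
      = M * (a / 2 + 1.15 * (1 - sin a / a)) + M * (b / 2 - 1.15 * (b ^ 2 / 6)) := by
    have : h = (a + b) / 2 := by linarith
    rw [this]; ring
  linarith

end Pool.Agent.TH234.BK
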