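import Pool.Agent.TH234.BK.OneB2

set_option autoImplicit false

open MeasureTheory Set Real

namespace Pool.Agent.TH234.BK

theorem split_at {x y m : ℝ} (hm : m ∈ Icc x y) {g : ℝ → ℝ} (hg : ContinuousOn g (Icc x y)) :
    ∫ s in x..y, g s = (∫ t in (0:ℝ)..(m - x), g (m - t)) + ∫ t in (0:ℝ)..(y - m), g (m + t) := by
  have j1 : IntervalIntegrable g volume x m :=
    ContinuousOn.intervalIntegrable (by
      rw [uIcc_of_le hm.1]; exact hg.mono (Icc_subset_Icc le_rfl hm.2))
  have j2 : IntervalIntegrable g volume m y :=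
    ContinuousOn.intervalIntegrable (by
      rw [uIcc_of_le hm.2]; exact hg.mono (Icc_subset_Icc hm.1 le_rfl))
  rw [← intervalIntegral.integral_add_adjacent_intervals j1 j2,
    intervalIntegral.integral_comp_sub_left (fun t => g t),
    intervalIntegral.integral_comp_add_left (fun t => g t)]
  simp

/-- Lower bound: the integral exceeds `4π/3` times every value. -/
theorem lower {h c m : ℝ} (h1 : π < h) {f : ℝ → ℝ}
    (hf : ConcaveOn ℝ (Icc (c - h) (c + h)) f) (hfc : ContinuousOn f (Icc (c - h) (c + h)))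
    (hpos : ∀ s ∈ Icc (c - h) (c + h), 0 ≤ f s) (hm : m ∈ Icc (c - h) (c + h)) (hfm : 0 < f m)
    (hcos : ∀ p, ∫ s in (c - h)..(c + h), f s * cos (s - p) = 0) :
    4 * π / 3 * f m < ∫ s in (c - h)..(c + h), f s := by
  have hpi := pi_pos
  obtain ⟨a, ha⟩ : ∃ a, a = m - (c - h) := ⟨_, rfl⟩
  obtain ⟨b, hb⟩ : ∃ b, b = c + h - m := ⟨_, rfl⟩
  have ha0 : 0 ≤ a := by linarith [hm.1]
  have hb0 : 0 ≤ b := by linarith [hm.2]
  have hab : a + b = 2 * h := by linarith
  obtain ⟨F, hF⟩ : ∃ F : ℝ → ℝ, F = fun y => f (m - y) := ⟨_, rfl⟩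
  obtain ⟨G, hG⟩ : ∃ G : ℝ → ℝ, G = fun y => f (m + y) := ⟨_, rfl⟩
  have m1 : ∀ y ∈ Icc 0 a, m - y ∈ Icc (c - h) (c + h) := fun y hy =>
    ⟨by linarith [hy.2], by linarith [hy.1, hm.2]⟩
  have m2 : ∀ y ∈ Icc 0 b, m + y ∈ Icc (c - h) (c + h) := fun y hy =>
    ⟨by linarith [hy.1, hm.1], by linarith [hy.2]⟩
  have hFc : ContinuousOn F (Icc 0 a) := by rw [hF]; exact hfc.comp (by fun_prop) m1
  have hGc : ContinuousOn G (Icc 0 b) := by rw [hG]; exact hfc.comp (by fun_prop) m2
  have hFp : ∀ y ∈ Icc 0 a, 0 ≤ F y := fun y hy => by rw [hF]; exact hpos _ (m1 y hy)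
  have hGp : ∀ y ∈ Icc 0 b, 0 ≤ G y := fun y hy => by rw [hG]; exact hpos _ (m2 y hy)
  have hF0 : F 0 = f m := by rw [hF]; simp
  have hG0 : G 0 = f m := by rw [hG]; simp
  have hFconc : ConcaveOn ℝ (Icc 0 a) F := by
    refine ⟨convex_Icc 0 a, ?_⟩
    intro x hx y hy s t hs ht hst
    have := hf.2 (m1 x hx) (m1 y hy) hs ht hst
    rw [hF]
    simp only [smul_eq_mul] at this ⊢
    rwa [show s * (m - x) + t * (m - y) = m - (s * x + t * y) by
      linear_combination m * hst] at this
  have hGconc : ConcaveOn ℝ (Icc 0 b) G := by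
    refine ⟨convex_Icc 0 b, ?_⟩
    intro x hx y hy s t hs ht hst
    have := hf.2 (m2 x hx) (m2 y hy) hs ht hst
    rw [hG]
    simp only [smul_eq_mul] at this ⊢
    rwa [show s * (m + x) + t * (m + y) = m + (s * x + t * y) by
      linear_combination m * hst] at this
  have e0 : ∫ s in (c - h)..(c + h), f s = (∫ y in (0:ℝ)..a, F y) + ∫ y in (0:ℝ)..b, G y := by
    rw [split_at hm hfc, hF, hG, ha, hb]
  have hcos' : ∀ p, (∫ y in (0:ℝ)..a, F y * cos (y - p)) + (∫ y in (0:ℝ)..b, G y * cos (y + p)) = 0 := by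
    intro p
    have := hcos (m - p)
    have hcc : ContinuousOn (fun s => f s * cos (s - (m - p))) (Icc (c - h) (c + h)) :=
      hfc.mul (by fun_prop)
    rw [split_at hm hcc] at this
    rw [← this, hF, hG, ha, hb]
    congr 1
    · congr 1; funext y
      beta_reduce
      rw [show m - y - (m - p) = -(y - p) by ring, cos_neg]
    · congr 1; funext y
      beta_reduce
      rw [show m + y - (m - p) = y + p by ring]
  rw [e0]
  rcases le_or_gt h (4 * π / 3) with h2 | h2
  · rcases le_total b a with hba | hba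
    · rcases le_total b 0.6 with hb6 | hb6
      · exact core2 h1 h2 hb0 hb6 hab hfm hFconc hFc hFp hF0 hGconc hGc hGp hG0 hcos'
      · exact core1 h1 h2 hb6 hba hab hfm hFconc hFc hFp hF0 hGconc hGc hGp hG0 hcos'
    · have hcos'' : ∀ p, (∫ y in (0:ℝ)..b, G y * cos (y - p)) +
          (∫ y in (0:ℝ)..a, F y * cos (y + p)) = 0 := by
        intro p
        have := hcos' (-p)
        simp only [sub_neg_eq_add, ← sub_eq_add_neg] at this
        linarith
      rw [add_comm]
      rcases le_total a 0.6 with hb6 | hb6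
      · exact core2 h1 h2 ha0 hb6 (by linarith) hfm hGconc hGc hGp hG0 hFconc hFc hFp hF0 hcos''
      · exact core1 h1 h2 hb6 hba (by linarith) hfm hGconc hGc hGp hG0 hFconc hFc hFp hF0 hcos''
  · -- trivial range
    have tr : ∀ (a : ℝ) (F : ℝ → ℝ), 0 ≤ a → ConcaveOn ℝ (Icc 0 a) F → ContinuousOn F (Icc 0 a) →
        (∀ y ∈ Icc 0 a, 0 ≤ F y) → F 0 = f m → f m * (a / 2) ≤ ∫ y in (0:ℝ)..a, F y := by
      intro a F ha hF hFc hFp hF0
      rcases eq_or_lt_of_le ha with h | h
      · rw [← h]; simp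
      have e : f m * (a / 2) = ∫ y in (0:ℝ)..a, f m * (1 - y / a) := by
        have hd : ∀ x ∈ uIcc 0 a, HasDerivAt (fun y : ℝ => y - y ^ 2 / (2 * a)) (1 - x / a) x := by
          intro x _
          have h5 := ((hasDerivAt_id x).pow 2).div_const (2 * a)
          refine ((hasDerivAt_id x).sub h5).congr_deriv ?_
          simp
          field_simp
        rw [intervalIntegral.integral_const_mul, intervalIntegral.integral_eq_sub_of_hasDerivAt hd
          (Continuous.intervalIntegrable (by fun_prop) _ _)]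
        field_simp
        ring
      rw [e]
      apply intervalIntegral.integral_mono_on ha
      · exact Continuous.intervalIntegrable (by fun_prop) _ _
      · exact ContinuousOn.intervalIntegrable (by rw [uIcc_of_le ha]; exact hFc)
      · intro y hy
        exact chord_le h hF hFp hF0 hy
    have t1 := tr a F ha0 hFconc hFc hFp hF0
    have t2 := tr b G hb0 hGconc hGc hGp hG0
    have : f m * (a / 2) + f m * (b / 2) = f m * h := by
      rw [show h = (a + b) / 2 by linarith]; ring
    nlinarith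

/-- one period -/
theorem period {p : ℝ} {F : ℝ → ℝ} (hF : ConcaveOn ℝ (Icc p (p + 2 * π)) F)
    (hFc : ContinuousOn F (Icc p (p + 2 * π))) :
    ∫ s in p..(p + 2 * π), F s * cos (s - p) ≤ 0 ∧
    (∫ s in p..(p + 2 * π), F s * cos (s - p) = 0 → F p + F (p + 2 * π) = 2 * F (p + π)) := by
  have hpi := pi_pos
  obtain ⟨K, hK⟩ : ∃ K : ℝ → ℝ, K = fun x =>
      F (p + π - x) + F (p + π + x) - F (p + x) - F (p + 2 * π - x) := ⟨_, rfl⟩
  have mem : ∀ x ∈ Icc 0 (π / 2), p + x ∈ Icc p (p + 2 * π) ∧ p + π - x ∈ Icc p (p + 2 * π) ∧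
      p + π + x ∈ Icc p (p + 2 * π) ∧ p + 2 * π - x ∈ Icc p (p + 2 * π) := by
    intro x hx
    obtain ⟨hx0, hx1⟩ := hx
    refine ⟨⟨?_, ?_⟩, ⟨?_, ?_⟩, ⟨?_, ?_⟩, ⟨?_, ?_⟩⟩ <;> linarith
  have hKc : ContinuousOn K (Icc 0 (π / 2)) := by
    rw [hK]
    refine ContinuousOn.sub (ContinuousOn.sub (ContinuousOn.add ?_ ?_) ?_) ?_
    · exact hFc.comp (by fun_prop) (fun x hx => (mem x hx).2.1)
    · exact hFc.comp (by fun_prop) (fun x hx => (mem x hx).2.2.1)
    · exact hFc.comp (by fun_prop) (fun x hx => (mem x hx).1)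
    · exact hFc.comp (by fun_prop) (fun x hx => (mem x hx).2.2.2)
  have hKn : ∀ x ∈ Icc 0 (π / 2), 0 ≤ K x := by
    intro x hx
    obtain ⟨a1, a2, a3, a4⟩ := mem x hx
    obtain ⟨hx0, hx1⟩ := hx
    -- p + π - x = (1-t)(p+x) + t (p+2π-x)
    rcases eq_or_lt_of_le (show x ≤ π by linarith) with h | h
    · linarith
    obtain ⟨t, ht⟩ : ∃ t, t = (π - 2 * x) / (2 * π - 2 * x) := ⟨_, rfl⟩
    have hden : 0 < 2 * π - 2 * x := by linarith
    have ht0 : 0 ≤ t := by rw [ht]; exact div_nonneg (by linarith) hden.le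
    have ht1 : 0 ≤ 1 - t := by
      rw [sub_nonneg, ht, div_le_one hden]; linarith
    have htm : t * (2 * π - 2 * x) = π - 2 * x := by rw [ht, div_mul_cancel₀ _ hden.ne']
    have k1 := hF.2 a1 a4 ht1 ht0 (by ring)
    have k2 := hF.2 a1 a4 ht0 ht1 (by ring)
    simp only [smul_eq_mul] at k1 k2
    rw [show (1 - t) * (p + x) + t * (p + 2 * π - x) = p + π - x by linear_combination htm] at k1
    rw [show t * (p + x) + (1 - t) * (p + 2 * π - x) = p + π + x by linear_combination -htm] at k2
    rw [hK]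
    simp only []
    linarith
  have main : ∫ s in p..(p + 2 * π), F s * cos (s - p) = - ∫ x in (0:ℝ)..(π / 2), K x * cos x := by
    obtain ⟨f, hf⟩ : ∃ f : ℝ → ℝ, f = fun s => F s * cos (s - p) := ⟨_, rfl⟩
    have hfc : ContinuousOn f (Icc p (p + 2 * π)) := by rw [hf]; exact hFc.mul (by fun_prop)
    have ii : ∀ x y, p ≤ x → x ≤ y → y ≤ p + 2 * π → IntervalIntegrable f volume x y := by
      intro x y hx hxy hy
      exact ContinuousOn.intervalIntegrable (by
        rw [uIcc_of_le hxy]; exact hfc.mono (Icc_subset_Icc hx hy))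
    have split : ∫ s in p..(p + 2 * π), f s = (∫ s in p..(p + π / 2), f s) +
        (∫ s in (p + π / 2)..(p + π), f s) + (∫ s in (p + π)..(p + 3 * π / 2), f s) +
        ∫ s in (p + 3 * π / 2)..(p + 2 * π), f s := by
      rw [intervalIntegral.integral_add_adjacent_intervals (ii _ _ le_rfl (by linarith) (by linarith))
        (ii _ _ (by linarith) (by linarith) (by linarith)),
        intervalIntegral.integral_add_adjacent_intervals (ii _ _ le_rfl (by linarith) (by linarith))
        (ii _ _ (by linarith) (by linarith) (by linarith)),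
        intervalIntegral.integral_add_adjacent_intervals (ii _ _ le_rfl (by linarith) (by linarith))
        (ii _ _ (by linarith) (by linarith) (by linarith))]
    have s1 : ∫ s in p..(p + π / 2), f s = ∫ x in (0:ℝ)..(π / 2), F (p + x) * cos x := by
      have := intervalIntegral.integral_comp_add_left (a := 0) (b := π / 2) (fun t => f t) p
      rw [add_zero] at this
      rw [← this, hf]
      congr 1; funext x
      beta_reduce
      rw [show p + x - p = x by ring]
    have s2 : ∫ s in (p + π / 2)..(p + π), f s = ∫ x in (0:ℝ)..(π / 2), -(F (p + π - x) * cos x) := by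
      have := intervalIntegral.integral_comp_sub_left (a := 0) (b := π / 2) (fun t => f t) (p + π)
      rw [sub_zero, show p + π - π / 2 = p + π / 2 by ring] at this
      rw [← this, hf]
      congr 1; funext x
      beta_reduce
      rw [show p + π - x - p = π - x by ring, cos_pi_sub]
      ring
    have s3 : ∫ s in (p + π)..(p + 3 * π / 2), f s = ∫ x in (0:ℝ)..(π / 2), -(F (p + π + x) * cos x) := by
      have := intervalIntegral.integral_comp_add_left (a := 0) (b := π / 2) (fun t => f t) (p + π)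
      rw [add_zero, show p + π + π / 2 = p + 3 * π / 2 by ring] at this
      rw [← this, hf]
      congr 1; funext x
      beta_reduce
      rw [show p + π + x - p = x + π by ring, cos_add_pi]
      ring
    have s4 : ∫ s in (p + 3 * π / 2)..(p + 2 * π), f s = ∫ x in (0:ℝ)..(π / 2), F (p + 2 * π - x) * cos x := by
      have := intervalIntegral.integral_comp_sub_left (a := 0) (b := π / 2) (fun t => f t) (p + 2 * π)
      rw [sub_zero, show p + 2 * π - π / 2 = p + 3 * π / 2 by ring] at this
      rw [← this, hf]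
      congr 1; funext x
      beta_reduce
      rw [show p + 2 * π - x - p = 2 * π - x by ring, cos_two_pi_sub]
    have cc : ∀ u : ℝ → ℝ, (∀ x ∈ Icc 0 (π / 2), u x ∈ Icc p (p + 2 * π)) → Continuous u →
        IntervalIntegrable (fun x => F (u x) * cos x) volume 0 (π / 2) := by
      intro u hu huc
      exact ContinuousOn.intervalIntegrable (by
        rw [uIcc_of_le (by linarith)]
        exact (hFc.comp huc.continuousOn hu).mul (by fun_prop))
    have c1 := cc (fun x => p + x) (fun x hx => (mem x hx).1) (by fun_prop)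
    have c2 := cc (fun x => p + π - x) (fun x hx => (mem x hx).2.1) (by fun_prop)
    have c3 := cc (fun x => p + π + x) (fun x hx => (mem x hx).2.2.1) (by fun_prop)
    have c4 := cc (fun x => p + 2 * π - x) (fun x hx => (mem x hx).2.2.2) (by fun_prop)
    have e0 : ∫ s in p..(p + 2 * π), F s * cos (s - p) = ∫ s in p..(p + 2 * π), f s := by rw [hf]
    have e1 : ∫ x in (0:ℝ)..(π / 2), K x * cos x =
        (∫ x in (0:ℝ)..(π / 2), F (p + π - x) * cos x) + (∫ x in (0:ℝ)..(π / 2), F (p + π + x) * cos x)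
        - (∫ x in (0:ℝ)..(π / 2), F (p + x) * cos x) - ∫ x in (0:ℝ)..(π / 2), F (p + 2 * π - x) * cos x := by
      rw [← intervalIntegral.integral_add c2 c3, ← intervalIntegral.integral_sub (c2.add c3) c1,
        ← intervalIntegral.integral_sub ((c2.add c3).sub c1) c4]
      congr 1; funext x
      rw [hK]; ring
    rw [e0, split, s1, s2, s3, s4, e1, intervalIntegral.integral_neg, intervalIntegral.integral_neg]
    ring
  have hcosn : ∀ x ∈ Icc 0 (π / 2), 0 ≤ cos x := fun x hx =>
    cos_nonneg_of_mem_Icc ⟨by linarith [hx.1], hx.2⟩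
  constructor
  · rw [main, neg_nonpos]
    exact intervalIntegral.integral_nonneg (by linarith) (fun x hx =>
      mul_nonneg (hKn x hx) (hcosn x hx))
  · intro h0
    rw [main, neg_eq_zero] at h0
    by_contra hne
    have hK0 : 0 < K 0 := by
      have h1 := hKn 0 ⟨le_rfl, by linarith⟩
      rcases eq_or_lt_of_le h1 with h | h
      · exfalso
        apply hne
        rw [hK] at h
        simp only [sub_zero, add_zero] at h
        linarith
      · exact h
    have hKcc : ContinuousOn (fun x => K x * cos x) (Icc 0 (π / 2)) := hKc.mul (by fun_prop)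
    have h3 : 0 < ∫ x in (0:ℝ)..(π / 2), K x * cos x := by
      apply intervalIntegral.integral_pos (by linarith) hKcc
      · intro x hx
        exact mul_nonneg (hKn x ⟨hx.1.le, hx.2⟩) (hcosn x ⟨hx.1.le, hx.2⟩)
      · exact ⟨0, ⟨le_rfl, by linarith⟩, by rw [cos_zero, mul_one]; exact hK0⟩
    linarith

/-- `k` periods -/
theorem periods (k : ℕ) : ∀ {p : ℝ} {F : ℝ → ℝ}, ConcaveOn ℝ (Icc p (p + 2 * π * k)) F →
    ContinuousOn F (Icc p (p + 2 * π * k)) →
    ∫ s in p..(p + 2 * π * k), F s * cos (s - p) ≤ 0 ∧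
    (1 ≤ k → ∫ s in p..(p + 2 * π * k), F s * cos (s - p) = 0 →
      F p + F (p + 2 * π) = 2 * F (p + π)) := by
  have hpi := pi_pos
  induction k with
  | zero =>
    intro p F _ _
    simp
  | succ k ih =>
    intro p F hF hFc
    have hk : (0:ℝ) ≤ k := Nat.cast_nonneg k
    have hlen : p + 2 * π * ((k + 1 : ℕ) : ℝ) = (p + 2 * π) + 2 * π * k := by push_cast; ring
    rw [hlen] at hF hFc ⊢
    have hle : p + 2 * π ≤ (p + 2 * π) + 2 * π * k := by nlinarith
    have s1 : Icc p (p + 2 * π) ⊆ Icc p ((p + 2 * π) + 2 * π * k) := Icc_subset_Icc le_rfl hle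
    have s2 : Icc (p + 2 * π) ((p + 2 * π) + 2 * π * k) ⊆ Icc p ((p + 2 * π) + 2 * π * k) :=
      Icc_subset_Icc (by linarith) le_rfl
    have a1 := period (hF.subset s1 (convex_Icc _ _)) (hFc.mono s1)
    have a2 := ih (hF.subset s2 (convex_Icc _ _)) (hFc.mono s2)
    have hc : ContinuousOn (fun s => F s * cos (s - p)) (Icc p ((p + 2 * π) + 2 * π * k)) :=
      hFc.mul (by fun_prop)
    have split : ∫ s in p..((p + 2 * π) + 2 * π * k), F s * cos (s - p) =
        (∫ s in p..(p + 2 * π), F s * cos (s - p)) +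
        ∫ s in (p + 2 * π)..((p + 2 * π) + 2 * π * k), F s * cos (s - (p + 2 * π)) := by
      rw [← intervalIntegral.integral_add_adjacent_intervals (b := p + 2 * π)]
      · congr 1
        congr 1; funext s
        rw [show s - p = (s - (p + 2 * π)) + 2 * π by ring, cos_add_two_pi]
      · exact ContinuousOn.intervalIntegrable (by
          rw [uIcc_of_le (by linarith)]; exact hc.mono s1)
      · exact ContinuousOn.intervalIntegrable (by
          rw [uIcc_of_le hle]; exact hc.mono s2)
    rw [split]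
    refine ⟨by linarith [a1.1, a2.1], fun _ h0 => a1.2 ?_⟩
    linarith [a1.1, a2.1]

end Pool.Agent.TH234.BK
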