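import Pool.Agent.TH234.BK.OneC

set_option autoImplicit false

open MeasureTheory Set Real

namespace Pool.Agent.TH234.BK

/-- If the interval is shorter than `2π`, the centred cosine integral is positive. -/
theorem small {h c : ℝ} (h0 : 0 < h) (h1 : h < π) {f : ℝ → ℝ}
    (hf : ConcaveOn ℝ (Icc (c - h) (c + h)) f) (hfc : ContinuousOn f (Icc (c - h) (c + h)))
    (hpos : ∀ s ∈ Icc (c - h) (c + h), 0 ≤ f s) (hc : 0 < f c) :
    0 < ∫ s in (c - h)..(c + h), f s * cos (s - c) := by
  have hpi := pi_pos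
  obtain ⟨G, hG⟩ : ∃ G : ℝ → ℝ, G = fun s => f (c - s) + f (c + s) := ⟨_, rfl⟩
  have m1 : ∀ s ∈ Icc 0 h, c + s ∈ Icc (c - h) (c + h) := fun s hs =>
    ⟨by linarith [hs.1], by linarith [hs.2]⟩
  have m2 : ∀ s ∈ Icc 0 h, c - s ∈ Icc (c - h) (c + h) := fun s hs =>
    ⟨by linarith [hs.2], by linarith [hs.1]⟩
  have hGc : ContinuousOn G (Icc 0 h) := by
    rw [hG]
    exact (hfc.comp (by fun_prop) m2).add (hfc.comp (by fun_prop) m1)
  have hGp : ∀ s ∈ Icc 0 h, 0 ≤ G s := fun s hs => by
    rw [hG]; exact add_nonneg (hpos _ (m2 s hs)) (hpos _ (m1 s hs))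
  have hG0 : 0 < G 0 := by rw [hG]; simp only [sub_zero, add_zero]; linarith
  have hanti : ∀ s t, 0 ≤ s → s ≤ t → t ≤ h → G t ≤ G s := by
    intro s t hs hst hth
    rcases eq_or_lt_of_le (hs.trans hst) with h' | h'
    · have : s = t := by linarith
      rw [this]
    obtain ⟨l, hl⟩ : ∃ l, l = (t + s) / (2 * t) := ⟨_, rfl⟩
    have hl0 : 0 ≤ l := by rw [hl]; apply div_nonneg <;> linarith
    have hl1 : 0 ≤ 1 - l := by rw [sub_nonneg, hl, div_le_one (by linarith)]; linarith
    have hlt : l * (2 * t) = t + s := by rw [hl, div_mul_cancel₀ _ (by linarith)]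
    have htm : t ∈ Icc 0 h := ⟨h'.le, hth⟩
    have k1 := hf.2 (m1 t htm) (m2 t htm) hl0 hl1 (by ring)
    have k2 := hf.2 (m1 t htm) (m2 t htm) hl1 hl0 (by ring)
    simp only [smul_eq_mul] at k1 k2
    rw [show l * (c + t) + (1 - l) * (c - t) = c + s by linear_combination hlt] at k1
    rw [show (1 - l) * (c + t) + l * (c - t) = c - s by linear_combination -hlt] at k2
    rw [hG]; simp only []; linarith
  have e : ∫ s in (c - h)..(c + h), f s * cos (s - c) = ∫ s in (0:ℝ)..h, G s * cos s := by
    have hcc : ContinuousOn (fun s => f s * cos (s - c)) (Icc (c - h) (c + h)) :=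
      hfc.mul (by fun_prop)
    rw [split_at (m := c) ⟨by linarith, by linarith⟩ hcc]
    rw [show c - (c - h) = h by ring, show c + h - c = h by ring]
    rw [← intervalIntegral.integral_add]
    · congr 1; funext s
      rw [hG]
      beta_reduce
      rw [show c - s - c = -s by ring, show c + s - c = s by ring, cos_neg]
      ring
    · exact ContinuousOn.intervalIntegrable (by
        rw [uIcc_of_le h0.le]; exact hcc.comp (by fun_prop) m2)
    · exact ContinuousOn.intervalIntegrable (by
        rw [uIcc_of_le h0.le]; exact hcc.comp (by fun_prop) m1)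
  rw [e]
  have hGcc : ContinuousOn (fun s => G s * cos s) (Icc 0 h) := hGc.mul (by fun_prop)
  rcases le_or_gt h (π / 2) with h2 | h2
  · apply intervalIntegral.integral_pos h0 hGcc
    · intro x hx
      exact mul_nonneg (hGp x ⟨hx.1.le, hx.2⟩) (cos_nonneg_of_mem_Icc ⟨by linarith [hx.1], by linarith [hx.2]⟩)
    · exact ⟨0, ⟨le_rfl, h0.le⟩, by rw [cos_zero, mul_one]; exact hG0⟩
  · have hsin : 0 < sin h := sin_pos_of_pos_of_lt_pi h0 h1
    -- positivity at π/2
    have hmid : 0 < G (π / 2) := by
      have hcm : c ∈ Icc (c - h) (c + h) := ⟨by linarith, by linarith⟩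
      have e1 : c + h ∈ Icc (c - h) (c + h) := ⟨by linarith, le_rfl⟩
      obtain ⟨t, ht⟩ : ∃ t, t = (π / 2) / h := ⟨_, rfl⟩
      have ht0 : 0 ≤ t := by rw [ht]; positivity
      have ht1 : 0 < 1 - t := by rw [sub_pos, ht, div_lt_one h0]; exact h2
      have hth : t * h = π / 2 := by rw [ht, div_mul_cancel₀ _ h0.ne']
      have k := hf.2 hcm e1 ht1.le ht0 (by ring)
      simp only [smul_eq_mul] at k
      rw [show (1 - t) * c + t * (c + h) = c + π / 2 by linear_combination hth] at k
      have k3 : 0 < (1 - t) * f c := mul_pos ht1 hc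
      have k4 : 0 ≤ t * f (c + h) := mul_nonneg ht0 (hpos _ e1)
      have k5 : 0 ≤ f (c - π / 2) := hpos _ (m2 _ ⟨by linarith, h2.le⟩)
      rw [hG]; simp only []; linarith
    have l1 : ∫ s in (0:ℝ)..h, G (π / 2) * cos s ≤ ∫ s in (0:ℝ)..h, G s * cos s := by
      apply intervalIntegral.integral_mono_on h0.le
      · exact Continuous.intervalIntegrable (by fun_prop) _ _
      · exact ContinuousOn.intervalIntegrable (by rw [uIcc_of_le h0.le]; exact hGcc)
      · intro s hs
        rcases le_total s (π / 2) with h3 | h3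
        · exact mul_le_mul_of_nonneg_right (hanti _ _ hs.1 h3 h2.le)
            (cos_nonneg_of_mem_Icc ⟨by linarith [hs.1], h3⟩)
        · exact mul_le_mul_of_nonpos_right (hanti _ _ (by linarith) h3 hs.2)
            (cos_nonpos_of_pi_div_two_le_of_le h3 (by linarith [hs.2]))
    rw [intervalIntegral.integral_const_mul, integral_cos, sin_zero, sub_zero] at l1
    exact lt_of_lt_of_le (mul_pos hmid hsin) l1

/-- a concave function with equality at the midpoint of an initial interval lies below the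
corresponding line -/
theorem aff {A B d : ℝ} (hd : 0 < d) (hB : A + 2 * d ≤ B) {F : ℝ → ℝ}
    (hF : ConcaveOn ℝ (Icc A B) F) (he : F A + F (A + 2 * d) = 2 * F (A + d)) :
    ∀ u ∈ Icc A B, F u ≤ F A + (F (A + d) - F A) / d * (u - A) := by
  intro u hu
  obtain ⟨s, hs⟩ : ∃ s, s = (F (A + d) - F A) / d := ⟨_, rfl⟩
  have hsd : s * d = F (A + d) - F A := by rw [hs, div_mul_cancel₀ _ hd.ne']
  rw [← hs]
  have mA : A ∈ Icc A B := ⟨le_rfl, by linarith⟩
  have mD : A + d ∈ Icc A B := ⟨by linarith, by linarith⟩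
  have m2 : A + 2 * d ∈ Icc A B := ⟨by linarith, hB⟩
  rcases eq_or_lt_of_le hu.1 with h | h
  · rw [← h]; simp
  rcases lt_trichotomy u (A + d) with h1 | h1 | h1
  · -- slopes u → A+d → A+2d
    have := hF.slope_anti_adjacent hu m2 h1 (by linarith)
    rw [div_le_div_iff₀ (by linarith) (by linarith)] at this
    have e : F (A + 2 * d) - F (A + d) = s * d := by linarith
    rw [e] at this
    have h3 : A + 2 * d - (A + d) = d := by ring
    rw [h3] at this
    have h4 : s * (A + d - u) * d ≤ (F (A + d) - F u) * d := by linarith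
    have h5 := le_of_mul_le_mul_right h4 hd
    linarith
  · rw [h1]; linarith
  · have := hF.slope_anti_adjacent mA hu (by linarith : A < A + d) h1
    rw [div_le_div_iff₀ (by linarith) (by linarith)] at this
    have h3 : A + d - A = d := by ring
    rw [h3, ← hsd] at this
    have h4 : (F u - F (A + d)) * d ≤ (s * (u - (A + d))) * d := by linarith
    have h5 := le_of_mul_le_mul_right h4 hd
    linarith

end Pool.Agent.TH234.BK
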